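import Pool.Agent.Lib_helper27.S.Stmt
import Pool.Agent.Lib_helper27.R.Str

/-!
# Names of functions from `ω` to `2` and of finite tuples
-/

set_option linter.unusedSectionVars false
set_option linter.unusedVariables false

namespace Pool.Agent.Lib_helper27.S

open Fml V Q R Cardinal

section

variable {P : Type} [Preorder P]

theorem feq_b0 (p : P) : feq (bnm P false) (onm P (0 : ℕ)) p := by
  refine feq_ext fun z q hq => ?_
  refine iff_of_false not_fmem_mkEmpty fun h => ?_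
  obtain ⟨r, _, n, hn, _⟩ := (fmem_onm.1 h).exists
  exact absurd hn (Nat.not_lt_zero n)

theorem feq_b1 (p : P) : feq (bnm P true) (onm P (1 : ℕ)) p := by
  refine feq_ext fun z q hq => ?_
  show fmem z (mkPair (bnm P false) (bnm P false)) q ↔ _
  rw [fmem_single, fmem_onm]
  constructor
  · intro h
    exact Loc.pure fun r hr => ⟨0, Nat.zero_lt_one, feq_trans (feq_mono hr h) (feq_b0 r)⟩
  · intro h
    refine feq_dense (h.imp ?_)
    rintro r _ ⟨n, hn, he⟩
    obtain rfl : n = 0 := by omega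
    exact feq_trans he (feq_symm (feq_b0 r))

theorem fc_isSuc {n : ℕ} {z : Name P} {p : P} (h : Fc p (isSuc z (onm P n))) :
    feq z (onm P (n + 1)) p := by
  refine feq_ext fun x q hq => ?_
  have h1 : fmem x z q ↔ Fc q (or (mem x (onm P n)) (eq x (onm P n))) :=
    (forces_iff nf_basic).1 (h x) q hq
  have h2 : fmem x (onm P (n + 1)) q ↔ Fc q (or (mem x (onm P n)) (eq x (onm P n))) :=
    (forces_iff nf_basic).1 (fc_isSucc n q x) q le_rfl
  exact h1.trans h2.symm

/-- extensionality for functions from `ω` to `2` -/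
theorem func_ext {f g : Name P} {p : P} (hf : Fc p (isFunc f (oall P ℕ) (twoN P)))
    (hg : Fc p (isFunc g (oall P ℕ) (twoN P)))
    (h : ∀ q, q ≤ p → ∀ (m : ℕ) (b : Bool), Fc q (app f (onm P m) (bnm P b)) →
      Fc q (app g (onm P m) (bnm P b))) : feq f g p := by
  -- elements of a function
  have key : ∀ (f : Name P) (q : P), Fc q (isFunc f (oall P ℕ) (twoN P)) → ∀ z, fmem z f q →
      Loc q fun r => ∃ (m : ℕ) (b : Bool), feq z (mkOPair (onm P m) (bnm P b)) r ∧
        Fc r (app f (onm P m) (bnm P b)) := by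
    intro f q hf z hz
    refine (forces_bex.1 ((forces_ball nf_basic).1 hf.1 z q le_rfl hz)).bind ?_
    rintro s hs ⟨x, hx, h1⟩
    refine (forces_bex.1 h1).bind ?_
    rintro u hu ⟨y, hy, h2⟩
    refine ((fmem_oall.1 hx).mono hu).bind ?_
    rintro v hv ⟨m, he⟩
    refine ((fmem_two.1 hy).mono hv).imp ?_
    rintro w hw ⟨b, hb⟩
    have h3 : feq z (mkOPair (onm P m) (bnm P b)) w :=
      feq_trans (fc_opair_iff.1 (Forces.mono nf_basic (hw.trans hv) h2))
        (feq_opair_congr (feq_mono hw he) hb)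
    exact ⟨m, b, h3, app_iff.2 (fmem_congr_left h3 (fmem_mono (hw.trans (hv.trans (hu.trans hs)))
      hz))⟩
  refine feq_ext fun z q hq => ?_
  constructor
  · intro hz
    refine fmem_dense ((key f q (Forces.mono nf_basic hq hf) z hz).imp ?_)
    rintro r hr ⟨m, b, h1, h2⟩
    exact fmem_congr_left (feq_symm h1) (app_iff.1 (h r (hr.trans hq) m b h2))
  · intro hz
    refine fmem_dense ((key g q (Forces.mono nf_basic hq hg) z hz).bind ?_)
    rintro r hr ⟨m, b, h1, h2⟩
    refine (V.func_total (Forces.mono nf_basic (hr.trans hq) hf) (onm_mem_oall m r)).bind ?_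
    rintro s hs ⟨y, hy, h3⟩
    refine (fmem_two.1 hy).imp ?_
    rintro u hu ⟨b', hb'⟩
    have h4 : Fc u (app f (onm P m) (bnm P b')) :=
      app_congr' (feq_refl _ _) hb' (Forces.mono nf_basic hu h3)
    have hur : u ≤ r := hu.trans hs
    have h5 := h u (hur.trans (hr.trans hq)) m b' h4
    have h6 := bnm_inj (V.func_single (Forces.mono nf_basic (hur.trans (hr.trans hq)) hg) h5
      (Forces.mono nf_basic hur h2))
    subst h6
    exact fmem_congr_left (feq_symm (feq_mono hur h1)) (app_iff.1 h4)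

/-- names of functions from `ω` to `2` -/
noncomputable def fnB (Q : ℕ × Bool → P → Prop) : Name P :=
  mkFn (ℕ × Bool) (fun z => onm P z.1) (fun z => bnm P z.2) Q

/-- `Q` describes a function from `ω` to `2` -/
structure IsB (Q : ℕ × Bool → P → Prop) : Prop where
  down : Down Q
  total : ∀ m p, Loc p fun r => ∃ b, Q (m, b) r
  single : ∀ m b b' p, Q (m, b) p → Q (m, b') p → b = b'

variable {Q Q' : ℕ × Bool → P → Prop}

theorem app_fnB (hQ : IsB Q) {m : ℕ} {b : Bool} {p : P} :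
    Fc p (app (fnB Q) (onm P m) (bnm P b)) ↔ Loc p (Q (m, b)) := by
  refine (fc_app hQ.down).trans ⟨fun h => h.imp ?_, fun h => h.imp ?_⟩
  · rintro r _ ⟨⟨m', b'⟩, h1, h2, h3⟩
    obtain rfl := onm_inj h2
    obtain rfl := bnm_inj h3
    exact h1
  · intro r _ h1
    exact ⟨(m, b), h1, feq_refl _ _, feq_refl _ _⟩

theorem app_fnB_of (hQ : IsB Q) {m : ℕ} {b : Bool} {p : P} (h : Q (m, b) p) :
    Fc p (app (fnB Q) (onm P m) (bnm P b)) :=
  (app_fnB hQ).2 (Loc.pure fun r hr => hQ.down _ _ _ hr h)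

theorem func_fnB (hQ : IsB Q) (p : P) : Fc p (isFunc (fnB Q) (oall P ℕ) (twoN P)) := by
  refine fc_isFunc hQ.down ?_ ?_ ?_
  · rintro ⟨m, b⟩ r _ _
    exact ⟨onm_mem_oall m r, fmem_two.2 (Loc.pure fun _ _ => ⟨b, feq_refl _ _⟩)⟩
  · intro x q hq hx
    refine (fmem_oall.1 hx).bind ?_
    rintro r _ ⟨m, hm⟩
    refine (hQ.total m r).imp ?_
    rintro s hs ⟨b, hb⟩
    exact ⟨(m, b), hb, feq_mono hs hm⟩
  · rintro ⟨m, b⟩ ⟨m', b'⟩ r _ h1 h2 h3
    obtain rfl := onm_inj h3
    obtain rfl := hQ.single m b b' r h1 h2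
    exact feq_refl _ _

theorem feq_fnB (hQ : IsB Q) {f : Name P} {p : P} (hf : Fc p (isFunc f (oall P ℕ) (twoN P)))
    (h : ∀ q, q ≤ p → ∀ (m : ℕ) (b : Bool), Fc q (app f (onm P m) (bnm P b)) →
      Loc q (Q (m, b))) : feq f (fnB Q) p :=
  func_ext hf (func_fnB hQ p) fun q hq m b hb => (app_fnB hQ).2 (h q hq m b hb)

theorem lex_of (hQ : IsB Q) (hQ' : IsB Q') {p : P} {m : ℕ}
    (h : ∀ k < m, ∃ b, Q (k, b) p ∧ Q' (k, b) p) (h1 : Q (m, false) p) (h2 : Q' (m, true) p) :
    Fc p (lexLt (oall P ℕ) (bnm P false) (bnm P true) (fnB Q) (fnB Q')) := by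
  refine forces_bex.2 (Loc.pure fun q hq => ⟨onm P m, onm_mem_oall m q, ?_, ?_, ?_⟩)
  · refine (forces_ball nf_basic).2 fun k r hr hk v => ?_
    refine (forces_iff nf_basic).2 fun s hs => ?_
    have key : ∀ (Q Q' : ℕ × Bool → P → Prop), IsB Q → IsB Q' →
        (∀ k < m, ∃ b, Q (k, b) p ∧ Q' (k, b) p) → Fc s (app (fnB Q) k v) →
        Fc s (app (fnB Q') k v) := by
      intro Q Q' hQ hQ' h h3
      refine Forces.dense nf_basic (((fmem_onm.1 hk).mono hs).bind ?_)
      rintro u hu ⟨k', hk', he⟩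
      refine ((fc_app hQ.down).1 (Forces.mono nf_basic hu h3)).imp ?_
      rintro w hw ⟨⟨k'', b⟩, h4, h5, h6⟩
      obtain rfl := onm_inj (feq_trans (feq_symm (feq_mono hw he)) h5)
      obtain ⟨b', h7, h8⟩ := h k' hk'
      have hwp : w ≤ p := hw.trans (hu.trans (hs.trans (hr.trans hq)))
      obtain rfl := hQ.single k' b b' w h4 (hQ.down _ _ _ hwp h7)
      exact app_congr' (feq_symm h5) (feq_symm h6) (app_fnB_of hQ' (hQ'.down _ _ _ hwp h8))
    exact ⟨key Q Q' hQ hQ' h, key Q' Q hQ' hQ fun k hk =>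
      let ⟨b, h3, h4⟩ := h k hk
      ⟨b, h4, h3⟩⟩
  · exact app_fnB_of hQ (hQ.down _ _ _ hq h1)
  · exact app_fnB_of hQ' (hQ'.down _ _ _ hq h2)

theorem lex_conv (hQ : IsB Q) (hQ' : IsB Q') {p : P}
    (h : Fc p (lexLt (oall P ℕ) (bnm P false) (bnm P true) (fnB Q) (fnB Q'))) :
    Loc p fun r => ∃ m, (∀ k < m, ∃ b, Q (k, b) r ∧ Q' (k, b) r) ∧ Q (m, false) r ∧
      Q' (m, true) r := by
  refine (forces_bex.1 h).bind ?_
  rintro q hq ⟨m', hm', h1, h2, h3⟩
  refine (fmem_oall.1 hm').bind ?_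
  rintro r hr ⟨m, hm⟩
  have h4 : Fc r (app (fnB Q) (onm P m) (bnm P false)) :=
    app_congr' hm (feq_refl _ _) (Forces.mono nf_basic hr h2)
  have h5 : Fc r (app (fnB Q') (onm P m) (bnm P true)) :=
    app_congr' hm (feq_refl _ _) (Forces.mono nf_basic hr h3)
  -- the values below `m`
  have key : ∀ m₀ ≤ m, Loc r fun s => ∀ k < m₀, ∃ b, Q (k, b) s ∧ Q' (k, b) s := by
    intro m₀
    induction m₀ with
    | zero => exact fun _ => Loc.pure fun s _ k hk => absurd hk (Nat.not_lt_zero k)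
    | succ m₀ ih =>
      intro hm₀
      refine (ih (by omega)).bind ?_
      intro s hs hs'
      refine (hQ.total m₀ s).bind ?_
      rintro u hu ⟨b, hb⟩
      have h6 : fmem (onm P m₀) m' u := fmem_congr_right (feq_symm (feq_mono (hu.trans hs) hm))
        (onm_mem (by omega) u)
      have h7 := (forces_ball nf_basic).1 h1 (onm P m₀) u (hu.trans (hs.trans hr)) h6 (bnm P b)
      have h8 : Fc u (app (fnB Q') (onm P m₀) (bnm P b)) :=
        ((forces_iff nf_basic).1 h7 u le_rfl).1 (app_fnB_of hQ hb)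
      refine ((app_fnB hQ').1 h8).imp ?_
      intro v hv h9 k hk
      rcases Nat.lt_succ_iff_lt_or_eq.1 hk with h10 | rfl
      · obtain ⟨b', h11, h12⟩ := hs' k h10
        exact ⟨b', hQ.down _ _ _ (hv.trans hu) h11, hQ'.down _ _ _ (hv.trans hu) h12⟩
      · exact ⟨b, hQ.down _ _ _ hv hb, h9⟩
  refine (key m le_rfl).bind ?_
  intro s hs hs'
  refine (((app_fnB hQ).1 h4).mono hs).bind ?_
  intro u hu h6
  refine (((app_fnB hQ').1 h5).mono (hu.trans hs)).imp ?_
  intro v hv h7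
  refine ⟨m, fun k hk => ?_, hQ.down _ _ _ hv h6, h7⟩
  obtain ⟨b', h11, h12⟩ := hs' k hk
  exact ⟨b', hQ.down _ _ _ (hv.trans hu) h11, hQ'.down _ _ _ (hv.trans hu) h12⟩

/-! ### Finite tuples -/

/-- the name of a tuple -/
noncomputable def finN {I : Type} {k : ℕ} (x : I → Name P) (g : Fin k → I) : Name P :=
  mkFn (Fin k) (fun i => onm P (i : ℕ)) (fun i => x (g i)) fun _ _ => True

theorem app_finN {I : Type} {k : ℕ} {x : I → Name P} {g : Fin k → I} (i : Fin k) (p : P) :
    Fc p (app (finN x g) (onm P (i : ℕ)) (x (g i))) :=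
  (fc_app down_true).2 (Loc.pure fun r _ => ⟨i, trivial, feq_refl _ _, feq_refl _ _⟩)

theorem app_finN_conv {I : Type} {k : ℕ} {x : I → Name P} {g : Fin k → I} {u v : Name P} {p : P}
    (h : Fc p (app (finN x g) u v)) :
    Loc p fun r => ∃ i : Fin k, feq u (onm P (i : ℕ)) r ∧ feq v (x (g i)) r := by
  refine ((fc_app down_true).1 h).imp ?_
  rintro r _ ⟨i, _, h1, h2⟩
  exact ⟨i, h1, h2⟩

theorem func_finN {I : Type} {k : ℕ} {x : I → Name P} {g : Fin k → I} {A : Name P} {p : P}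
    (h : ∀ i, fmem (x (g i)) A p) : Fc p (isFunc (finN x g) (onm P k) A) := by
  refine fc_isFunc (ι := Fin k) down_true ?_ ?_ ?_
  · intro i r hr _
    exact ⟨onm_mem i.2 r, fmem_mono hr (h i)⟩
  · intro z q _ hz
    refine (fmem_onm.1 hz).imp ?_
    rintro r _ ⟨i, hi, he⟩
    exact ⟨⟨i, hi⟩, trivial, he⟩
  · intro i j r _ _ _ h1
    rw [Fin.ext (onm_inj h1)]
    exact feq_refl _ _

theorem inj_finN {I : Type} {k : ℕ} {x : I → Name P} {g : Fin k → I} {A : Name P} {p : P}
    (h : ∀ i, fmem (x (g i)) A p) (h' : ∀ i j r, r ≤ p → feq (x (g i)) (x (g j)) r → i = j) :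
    Fc p (isInj (finN x g) (onm P k) A) := by
  refine fc_isInj (ι := Fin k) down_true (func_finN h) ?_
  intro i j r hr _ _ h1
  rw [h' i j r hr h1]
  exact feq_refl _ _

theorem func_fin {I : Type} {x : I → Name P} {a A : Name P} {k : ℕ} {p : P}
    (h : Fc p (isFunc a (onm P k) A))
    (hA : ∀ q, q ≤ p → ∀ z, fmem z A q → Loc q fun r => ∃ i, feq z (x i) r) :
    Loc p fun r => ∃ g : Fin k → I, feq a (finN x g) r := by
  have key : ∀ n ≤ k, Loc p fun r => ∃ g : ℕ → Option I, ∀ i < n, ∃ j, g i = some j ∧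
      Fc r (app a (onm P i) (x j)) := by
    intro n
    induction n with
    | zero => exact fun _ => Loc.pure fun r _ => ⟨fun _ => none, fun i hi =>
        absurd hi (Nat.not_lt_zero i)⟩
    | succ n ih =>
      intro hn
      refine (ih (by omega)).bind ?_
      rintro r hr ⟨g, hg⟩
      refine (V.func_total (Forces.mono nf_basic hr h) (onm_mem (show n < k by omega) r)).bind ?_
      rintro s hs ⟨y, hy, hy'⟩
      refine (hA s (hs.trans hr) y hy).imp ?_
      rintro u hu ⟨j, hj⟩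
      refine ⟨Function.update g n (some j), fun i hi => ?_⟩
      rcases Nat.lt_succ_iff_lt_or_eq.1 hi with h1 | rfl
      · obtain ⟨j', h2, h3⟩ := hg i h1
        refine ⟨j', ?_, Forces.mono nf_basic (hu.trans hs) h3⟩
        rw [Function.update_of_ne h1.ne, h2]
      · exact ⟨j, Function.update_self _ _ _, app_congr' (feq_refl _ _) hj
          (Forces.mono nf_basic hu hy')⟩
  refine (key k le_rfl).imp ?_
  rintro r hr ⟨g, hg⟩
  choose g' hg1 hg2 using fun i : Fin k => hg i i.2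
  refine ⟨g', feq_ext fun z q hq => ?_⟩
  have hf := Forces.mono nf_basic (hq.trans hr) h
  constructor
  · intro hz
    refine fmem_dense ?_
    refine (forces_bex.1 ((forces_ball nf_basic).1 hf.1 z q le_rfl hz)).bind ?_
    rintro s hs ⟨u, hu, h1⟩
    refine (forces_bex.1 h1).bind ?_
    rintro w hw ⟨y, hy, h2⟩
    refine ((fmem_onm.1 hu).mono hw).imp ?_
    rintro v hv ⟨i, hi, he⟩
    have hvq : v ≤ q := hv.trans (hw.trans hs)
    have h3 : feq z (mkOPair (onm P i) y) v :=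
      feq_trans (fc_opair_iff.1 (Forces.mono nf_basic hv h2)) (feq_opair_congr he (feq_refl _ _))
    have h4 : Fc v (app a (onm P i) y) := app_iff.2 (fmem_congr_left h3 (fmem_mono hvq hz))
    have h5 := V.func_single (Forces.mono nf_basic hvq hf) h4
      (Forces.mono nf_basic (hvq.trans hq) (hg2 ⟨i, hi⟩))
    refine fmem_congr_left (feq_symm (feq_trans h3 (feq_opair_congr (feq_refl _ _) h5))) ?_
    exact app_iff.1 (app_finN (x := x) (g := g') ⟨i, hi⟩ v)
  · intro hz
    refine fmem_dense (((fmem_mkQ (ι := Fin k) (x := fun i : Fin k =>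
      mkOPair (onm P (i : ℕ)) (x (g' i))) down_true).1 hz).imp ?_)
    rintro s hs ⟨i, _, he⟩
    exact fmem_congr_left (feq_symm he) (app_iff.1 (Forces.mono nf_basic (hs.trans hq) (hg2 i)))

end

end Pool.Agent.Lib_helper27.S
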