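import Pool.Agent.Lib_helper27.R.Ccc

/-!
# Elementary definitions: Cohen bits and types
-/

namespace Pool.Agent.Lib_helper27.S

open R V Q Cardinal

/-- `r` decides that the `m`-th bit of the `α`-th Cohen real is `b` -/
def Bt {X Om Lab : Type} (r : Cnd X Om Lab) (α : X) (m : ℕ) (b : Bool) : Prop :=
  ∃ v, r.c (α, m) = v + 1 ∧ b = decide (v ≠ 0)

/-- the `i`-th value, `i ≤ n`, of the `m`-th type: all the types are non-constant, and every
non-constant type occurs infinitely often -/
def ty (n m i : ℕ) : Bool :=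
  if (∀ j ≤ n, Nat.testBit (Nat.unpair m).1 j = true) ∨
    ∀ j ≤ n, Nat.testBit (Nat.unpair m).1 j = false then decide (i = 0)
  else Nat.testBit (Nat.unpair m).1 i

end Pool.Agent.Lib_helper27.S
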