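import Pool.Agent.Lib_helper27.S.Lab1
import Pool.Agent.Lib_helper27.S.Defs

/-!
# Cohen reals and their translates
-/

set_option linter.unusedSectionVars false
set_option linter.unusedVariables false

namespace Pool.Agent.Lib_helper27.S

open Fml V Q R Cardinal Set

section

variable {P : Type} [Preorder P] {Q Q' : ℕ × Bool → P → Prop}

theorem fnB_ne (hQ : IsB Q) (hQ' : IsB Q') {p : P}
    (h : ∃ r, r ≤ p ∧ ∃ m b, Q (m, b) r ∧ Q' (m, !b) r) : ¬ feq (fnB Q) (fnB Q') p := by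
  intro he
  obtain ⟨r, hr, m, b, h1, h2⟩ := h
  have h3 := app_fnB_of hQ h1
  have h4 : Fc r (app (fnB Q') (onm P m) (bnm P b)) :=
    app_iff.2 (fmem_congr_right (feq_mono hr he) (app_iff.1 h3))
  have h5 := bnm_inj (V.func_single (func_fnB hQ' r) h4 (app_fnB_of hQ' h2))
  cases b <;> simp at h5

theorem exists_fiber2 {X β : Type} (hβ : #β ≤ aleph 1) (φ : X → β) (hX : aleph 2 ≤ #X) :
    ∃ b, ¬ {x | φ x = b}.Countable := by
  by_contra hcon
  push Not at hcon
  have h1 : #X ≤ #β * ℵ₀ := by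
    have h2 : #X = #(Σ b : β, {x // φ x = b}) := mk_congr (Equiv.sigmaFiberEquiv φ).symm
    rw [h2, mk_sigma]
    refine (sum_le_sum _ (fun _ => ℵ₀) fun b => ?_).trans ?_
    · exact le_aleph0_iff_set_countable.2 (hcon b)
    · rw [sum_const]
      simp
  have h3 : #β * ℵ₀ ≤ aleph 1 := (mul_le_mul' hβ le_rfl).trans_eq (aleph_mul_aleph0 1)
  exact absurd (hX.trans (h1.trans h3)) (not_le.2 (aleph_lt_aleph.2 (by norm_num)))

end

section

variable {X Lab : Type} {E : Nms X Om1 Lab}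

theorem bt_mono {p q : Pc E} (hq : q ≤ p) {α : X} {m : ℕ} {b : Bool}
    (h : Bt (Lab := Lab) (Om := Om1) p α m b) : Bt (Lab := Lab) (Om := Om1) q α m b := by
  obtain ⟨v, h1, h2⟩ := h
  refine ⟨v, ?_, h2⟩
  rw [(pc_le.1 hq).1 _ (by rw [h1]; exact Nat.succ_ne_zero _), h1]

theorem bt_single {p : Cnd X Om1 Lab} {α : X} {m : ℕ} {b b' : Bool} (h : Bt p α m b)
    (h' : Bt p α m b') : b = b' := by
  obtain ⟨v, h1, rfl⟩ := h
  obtain ⟨v', h2, rfl⟩ := h'
  have : v = v' := by omega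
  rw [this]

theorem exists_bt (p : Cnd X Om1 Lab) (α : X) (m : ℕ) :
    ∃ q, R.LE E ⊤ q p ∧ ∃ b, Bt q α m b := by
  obtain ⟨q, hq, h⟩ := exists_cohen (E := E) p (α, m)
  obtain ⟨v, hv⟩ := Nat.exists_eq_succ_of_ne_zero h
  exact ⟨q, hq, _, v, hv, rfl⟩

theorem exists_fresh (p : Cnd X Om1 Lab) : ∃ M, ∀ α m, M ≤ m → p.c (α, m) = 0 := by
  refine ⟨p.c.support.sup Prod.snd + 1, fun α m hm => ?_⟩
  by_contra hcon
  have h1 : m ≤ p.c.support.sup Prod.snd :=
    Finset.le_sup (f := Prod.snd) (b := (α, m)) (Finsupp.mem_support_iff.2 hcon)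
  omega

/-- two different Cohen reals differ above any given number, in the given way -/
theorem exists_diff (p : Cnd X Om1 Lab) {α β : X} (h : α ≠ β) (b : Bool) :
    ∃ q, R.LE E ⊤ q p ∧ ∃ m, Bt q α m b ∧ Bt q β m (!b) := by
  classical
  obtain ⟨M, hM⟩ := exists_fresh p
  have hne : (α, M) ≠ (β, M) := fun h1 => h (congrArg Prod.fst h1)
  refine ⟨setC ((p.c.update (α, M) (b.toNat + 1)).update (β, M) ((!b).toNat + 1)) p,
    setC_le ?_ ⊤, M, ⟨b.toNat, ?_, ?_⟩, ⟨(!b).toNat, ?_, ?_⟩⟩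
  · intro x hx
    have h1 : x ≠ (α, M) := fun h1 => hx (h1 ▸ hM α M le_rfl)
    have h2 : x ≠ (β, M) := fun h1 => hx (h1 ▸ hM β M le_rfl)
    rw [Finsupp.update_apply, if_neg h2, Finsupp.update_apply, if_neg h1]
  · show ((p.c.update (α, M) (b.toNat + 1)).update (β, M) ((!b).toNat + 1)) (α, M) = _
    rw [Finsupp.update_apply, if_neg hne, Finsupp.update_apply, if_pos rfl]
  · cases b <;> rfl
  · show ((p.c.update (α, M) (b.toNat + 1)).update (β, M) ((!b).toNat + 1)) (β, M) = _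
    rw [Finsupp.update_apply, if_pos rfl]
  · cases b <;> rfl

/-- the function from `ω` to `2` given by the `α`-th Cohen real and a translation -/
def QC (E : Nms X Om1 Lab) (n : ℕ) (α : X) (i : ℕ) : ℕ × Bool → Pc E → Prop :=
  fun z q => Bt (Lab := Lab) (Om := Om1) q α z.1 (xor z.2 (ty n z.1 i))

theorem isB_QC (n : ℕ) (α : X) (i : ℕ) : IsB (QC E n α i) where
  down := fun _ _ _ hq h => bt_mono hq h
  total := by
    intro m p q hq
    obtain ⟨t, ht, b, hb⟩ := exists_bt (E := E) q α m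
    refine ⟨t, ht, xor b (ty n m i), ?_⟩
    show Bt t α m (xor (xor b (ty n m i)) (ty n m i))
    simpa using hb
  single := by
    intro m b b' p h h'
    have h1 := bt_single h h'
    simpa using h1

/-- the name of `c_α + t_i` -/
noncomputable def xN (E : Nms X Om1 Lab) (n : ℕ) (z : X × ℕ) : Name (Pc E) := fnB (QC E n z.1 z.2)

theorem func_xN (n : ℕ) (z : X × ℕ) (p : Pc E) :
    Fc p (isFunc (xN E n z) (oall (Pc E) ℕ) (twoN (Pc E))) := func_fnB (isB_QC n z.1 z.2) p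

/-- different entries are different -/
theorem xN_ne {n : ℕ} (hty : ∀ i j, i ≤ n → j ≤ n → i ≠ j → ∀ k, ∃ m, k ≤ m ∧ ty n m i ≠ ty n m j)
    {z z' : X × ℕ} (hz : z.2 ≤ n) (hz' : z'.2 ≤ n) (h : z ≠ z') (p : Pc E) :
    ¬ feq (xN E n z) (xN E n z') p := by
  classical
  obtain ⟨α, i⟩ := z
  obtain ⟨β, j⟩ := z'
  refine fnB_ne (isB_QC n α i) (isB_QC n β j) ?_
  by_cases hαβ : α = β
  · subst hαβ
    have hij : i ≠ j := fun hij => h (by rw [hij])
    obtain ⟨m, _, hm⟩ := hty i j hz hz' hij 0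
    obtain ⟨q, hq, b, hb⟩ := exists_bt (E := E) p α m
    refine ⟨q, hq, m, xor b (ty n m i), ?_, ?_⟩
    · show Bt q α m (xor (xor b (ty n m i)) (ty n m i))
      simpa using hb
    · show Bt q α m (xor (!(xor b (ty n m i))) (ty n m j))
      have : xor (!(xor b (ty n m i))) (ty n m j) = b := by
        revert hm
        cases b <;> cases ty n m i <;> cases ty n m j <;> simp
      rw [this]
      exact hb
  · obtain ⟨M, hM⟩ := exists_fresh p
    have hne : (α, M) ≠ (β, M) := fun h1 => hαβ (congrArg Prod.fst h1)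
    -- the values at `M`
    let c : X × ℕ →₀ ℕ := (p.c.update (α, M) ((ty n M i).toNat + 1)).update (β, M)
      ((!(ty n M j)).toNat + 1)
    have hc : ∀ x, p.c x ≠ 0 → c x = p.c x := by
      intro x hx
      have h1 : x ≠ (α, M) := fun h1 => hx (h1 ▸ hM α M le_rfl)
      have h2 : x ≠ (β, M) := fun h1 => hx (h1 ▸ hM β M le_rfl)
      rw [Finsupp.update_apply, if_neg h2, Finsupp.update_apply, if_neg h1]
    refine ⟨setC c p, setC_le hc ⊤, M, false, ⟨(ty n M i).toNat, ?_, ?_⟩,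
      ⟨(!(ty n M j)).toNat, ?_, ?_⟩⟩
    · show c (α, M) = _
      rw [Finsupp.update_apply, if_neg hne, Finsupp.update_apply, if_pos rfl]
    · cases ty n M i <;> rfl
    · show c (β, M) = _
      rw [Finsupp.update_apply, if_pos rfl]
    · cases ty n M j <;> rfl

end

end Pool.Agent.Lib_helper27.S
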