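import Pool.Agent.Lib_helper27.S.Coh
import Pool.Agent.Lib_helper72.SB.D1

/-!
# The combinatorial core of the proof that the sets are entangled
-/

set_option linter.unusedSectionVars false
set_option linter.unusedVariables false

namespace Pool.Agent.Lib_helper27.S

open R V Q Cardinal Set

/-- the type numbers of the classes -/
theorem exists_cls (n : ℕ) (hn : 1 ≤ n) (ι : Fin n → ℕ) (hι : ∀ i, ι i ≤ n) (τ : Fin n → Bool) :
    ∃ f : Finset (Fin n) → ℕ, ∀ C : Finset (Fin n), (∀ i ∈ C, ∀ j ∈ C, ι i = ι j → i = j) →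
      ∀ k, ∀ i ∈ C, ty n (Nat.pair (f C) k) (ι i) = τ i := by
  classical
  have key : ∀ C : Finset (Fin n), ∃ a, (∀ i ∈ C, ∀ j ∈ C, ι i = ι j → i = j) →
      ∀ k, ∀ i ∈ C, ty n (Nat.pair a k) (ι i) = τ i := by
    intro C
    by_cases hC : ∀ i ∈ C, ∀ j ∈ C, ι i = ι j → i = j
    · obtain ⟨a, ha⟩ := exists_ty_pr n (C.image ι) (by
        intro i hi
        obtain ⟨j, _, rfl⟩ := Finset.mem_image.1 hi
        exact hι j) ((Finset.card_image_le).trans ((Finset.card_le_univ C).trans_eq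
          (Fintype.card_fin n))) hn
        (fun v => if h : ∃ j ∈ C, ι j = v then τ h.choose else false)
      refine ⟨a, fun _ k i hi => ?_⟩
      rw [ha k _ (Finset.mem_image_of_mem ι hi)]
      have hex : ∃ j ∈ C, ι j = ι i := ⟨i, hi, rfl⟩
      rw [dif_pos hex, hC _ hex.choose_spec.1 i hi hex.choose_spec.2]
    · exact ⟨0, fun h => absurd h hC⟩
  choose f hf using key
  exact ⟨f, hf⟩

section

variable {X Lab : Type} {E : Nms X Om1 Lab}

open Classical in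
/-- fill the Cohen part at the places of `G` below `K` with the values `v` -/
noncomputable def fill (p : Cnd X Om1 Lab) (G : Finset X) (K : ℕ) (v : X × ℕ → ℕ) :
    X × ℕ →₀ ℕ :=
  Finsupp.onFinset (p.c.support ∪ G ×ˢ Finset.range K)
    (fun z => if p.c z ≠ 0 then p.c z else if z.1 ∈ G ∧ z.2 < K then v z else 0) (by
      intro z hz
      rw [Finset.mem_union, Finsupp.mem_support_iff]
      by_cases h : p.c z ≠ 0
      · exact Or.inl h
      · rw [if_neg h] at hz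
        by_cases h' : z.1 ∈ G ∧ z.2 < K
        · exact Or.inr (Finset.mem_product.2 ⟨h'.1, Finset.mem_range.2 h'.2⟩)
        · rw [if_neg h'] at hz
          exact absurd rfl hz)

theorem fill_old {p : Cnd X Om1 Lab} {G : Finset X} {K : ℕ} {v : X × ℕ → ℕ} {z : X × ℕ}
    (h : p.c z ≠ 0) : fill p G K v z = p.c z := by
  rw [fill, Finsupp.onFinset_apply, if_pos h]

theorem fill_new {p : Cnd X Om1 Lab} {G : Finset X} {K : ℕ} {v : X × ℕ → ℕ} {z : X × ℕ}
    (h : p.c z = 0) (h1 : z.1 ∈ G) (h2 : z.2 < K) : fill p G K v z = v z := by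
  rw [fill, Finsupp.onFinset_apply, if_neg (not_not.2 h), if_pos ⟨h1, h2⟩]

theorem fill_ne {p : Cnd X Om1 Lab} {G : Finset X} {K : ℕ} {v : X × ℕ → ℕ} {z : X × ℕ}
    (h : fill p G K v z ≠ 0) : p.c z ≠ 0 ∨ p.c z = 0 ∧ z.1 ∈ G ∧ z.2 < K := by
  by_cases h0 : p.c z = 0
  · right
    refine ⟨h0, ?_⟩
    by_contra h1
    refine h ?_
    rw [fill, Finsupp.onFinset_apply, if_neg (not_not.2 h0), if_neg h1]
  · exact Or.inl h0

theorem fill_le (p : Cnd X Om1 Lab) (G : Finset X) (K : ℕ) (v : X × ℕ → ℕ) :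
    R.LE E ⊤ (setC (fill p G K v) p) p := setC_le (fun _ hx => fill_old hx) ⊤

/-- the value `1` with a condition -/
theorem bt_of {p : Cnd X Om1 Lab} {α : X} {m v : ℕ} (h : p.c (α, m) = v + 1) :
    Bt p α m (decide (v ≠ 0)) := ⟨v, h, rfl⟩

end

/-- D3 -/
theorem ent_core_pr {X : Type} [Nonempty X] (E : Nms X Om1 X) {J : Type} (Y : Set J)
    (hY : ¬ Y.Countable) (n : ℕ) (hn : 1 ≤ n) (p : J → Pc E) (γ : J → Fin n → X)
    (ι : J → Fin n → ℕ) (hι : ∀ x i, ι x i ≤ n)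
    (hinj : ∀ x i j, γ x i = γ x j → ι x i = ι x j → i = j)
    (hdisj : ∀ x ∈ Y, ∀ y ∈ Y, x ≠ y → (∃ r, r ≤ p x ∧ r ≤ p y) →
      ∀ i j, ¬ (γ x i = γ y j ∧ ι x i = ι y j))
    (τ : Fin n → Bool) :
    ∃ x ∈ Y, ∃ y ∈ Y, x ≠ y ∧ ∃ r : Pc E, r ≤ p x ∧ r ≤ p y ∧ ∀ i, ι x i = ι y i ∧
      ∃ m, (∀ k < m, ∃ b, Bt (show Cnd X Om1 X from r) (γ x i) k b ∧
          Bt (show Cnd X Om1 X from r) (γ y i) k b) ∧
        Bt (show Cnd X Om1 X from r) (γ x i) m false ∧
        Bt (show Cnd X Om1 X from r) (γ y i) m true ∧ ty n m (ι x i) = τ i := by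
  classical
  -- 1. uniform indices and pattern
  obtain ⟨⟨ι₀, e⟩, hY1⟩ := exists_fiber (β := (Fin n → ℕ) × (Fin n → Fin n → Bool))
    (fun x => (ι x, fun i j => decide (γ x i = γ x j))) hY
  set Y1 := {x ∈ Y | (ι x, fun i j => decide (γ x i = γ x j)) = (ι₀, e)} with hY1def
  have h1Y : ∀ x ∈ Y1, x ∈ Y := fun x hx => hx.1
  have h1ι : ∀ x ∈ Y1, ∀ i, ι x i = ι₀ i := fun x hx i => congrFun (congrArg Prod.fst hx.2) i
  have h1e : ∀ x ∈ Y1, ∀ i j, (γ x i = γ x j ↔ e i j = true) := by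
    intro x hx i j
    have h := congrFun (congrFun (congrArg Prod.snd hx.2) i) j
    have h' : decide (γ x i = γ x j) = e i j := h
    rw [← h', decide_eq_true_iff]
  -- 2. Δ-system with empty root
  obtain ⟨Y2, hY21, hY2, r, hr, hr'⟩ := delta_system (fun x => Finset.univ.image (γ x)) Y1 hY1
  have hr0 : r = ∅ := by
    by_contra hne
    obtain ⟨ζ, hζ⟩ := Finset.nonempty_iff_ne_empty.2 hne
    have h1 : ∀ x : J, ∃ i : Option (Fin n), x ∈ Y2 → ∃ j, i = some j ∧ γ x j = ζ := by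
      intro x
      by_cases hx : x ∈ Y2
      · obtain ⟨j, _, hj⟩ := Finset.mem_image.1 (hr x hx hζ)
        exact ⟨some j, fun _ => ⟨j, rfl, hj⟩⟩
      · exact ⟨none, fun h => absurd h hx⟩
    choose c hc using h1
    obtain ⟨b, hb⟩ := exists_fiber c hY2
    obtain ⟨x, hx, y, hy, hxy, s, hs1, hs2⟩ := ccc_pc E p _ hb
    obtain ⟨j, hj, hjζ⟩ := hc x hx.1
    obtain ⟨j', hj', hjζ'⟩ := hc y hy.1
    have h2 : j = j' := by
      have h3 : (some j : Option (Fin n)) = some j' := by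
        rw [← hj, ← hj', hx.2, hy.2]
      exact Option.some.inj h3
    subst h2
    refine hdisj x (h1Y x (hY21 hx.1)) y (h1Y y (hY21 hy.1)) hxy ⟨s, hs1, hs2⟩ j j ⟨?_, ?_⟩
    · rw [hjζ, hjζ']
    · rw [h1ι x (hY21 hx.1), h1ι y (hY21 hy.1)]
  have hdis : ∀ x ∈ Y2, ∀ y ∈ Y2, x ≠ y → ∀ z, z ∈ Finset.univ.image (γ x) →
      z ∉ Finset.univ.image (γ y) := by
    intro x hx y hy hxy z h1 h2
    have h3 : z ∈ Finset.univ.image (γ x) ∩ Finset.univ.image (γ y) :=
      Finset.mem_inter.2 ⟨h1, h2⟩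
    have h4 := hr' x hx y hy hxy
    rw [hr0] at h4
    rw [h4] at h3
    exact Finset.notMem_empty z h3
  -- 3. fill up the Cohen parts
  have hK : ∀ x : J, ∃ K, ∀ z, Cnd.c (p x) z ≠ 0 → z.2 < K := by
    intro x
    obtain ⟨M, hM⟩ := exists_fresh (p x)
    refine ⟨M, fun z hz => ?_⟩
    by_contra h
    exact hz (hM z.1 z.2 (not_lt.1 h))
  choose K hK using hK
  have hmem : ∀ x i, γ x i ∈ Finset.univ.image (γ x) := fun x i =>
    Finset.mem_image_of_mem _ (Finset.mem_univ i)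
  let p1 : J → Cnd X Om1 X := fun x =>
    setC (fill (p x) (Finset.univ.image (γ x)) (K x) fun _ => 1) (p x)
  have hp1 : ∀ x, R.LE E ⊤ (p1 x) (p x) := fun x => fill_le _ _ _ _
  have hp1K : ∀ x z, (p1 x).c z ≠ 0 → z.2 < K x := by
    intro x z hz
    rcases fill_ne hz with h | ⟨_, _, h⟩
    · exact hK x z h
    · exact h
  have hp1d : ∀ x i k, k < K x → (p1 x).c (γ x i, k) ≠ 0 := by
    intro x i k hk
    by_cases h : Cnd.c (p x) (γ x i, k) = 0
    · have h1 : (p1 x).c (γ x i, k) = 1 := fill_new h (hmem x i) hk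
      rw [h1]
      exact one_ne_zero
    · have h1 : (p1 x).c (γ x i, k) = Cnd.c (p x) (γ x i, k) := fill_old h
      rw [h1]
      exact h
  obtain ⟨⟨K₀, w⟩, hY3⟩ := exists_fiber (β := ℕ × (Fin n → List ℕ))
    (fun x => (K x, fun i => (List.range (K x)).map fun k => (p1 x).c (γ x i, k))) hY2
  set Y3 := {x ∈ Y2 | (K x, fun i => (List.range (K x)).map fun k => (p1 x).c (γ x i, k)) =
    (K₀, w)} with hY3def
  have h3K : ∀ x ∈ Y3, K x = K₀ := fun x hx => congrArg Prod.fst hx.2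
  have h3w : ∀ x ∈ Y3, ∀ y ∈ Y3, ∀ i, ∀ k < K₀, (p1 x).c (γ x i, k) = (p1 y).c (γ y i, k) := by
    intro x hx y hy i k hk
    have h1 := congrFun (congrArg Prod.snd (hx.2.trans hy.2.symm)) i
    have h2 : (List.range (K x)).map (fun k => (p1 x).c (γ x i, k)) =
      (List.range (K y)).map (fun k => (p1 y).c (γ y i, k)) := h1
    rw [h3K x hx, h3K y hy] at h2
    exact List.map_inj_left.1 h2 k (List.mem_range.2 hk)
  -- 4. uniformize and merge
  obtain ⟨Y4, hY43, hY4, D, m₀, hF⟩ := uniformize p1 Y3 hY3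
  obtain ⟨R₀, hR⟩ := R.merge (Lm := X) (Om := Om1) (Lab := X) (E := E) m₀ D.card 2
  have hinf : Y4.Infinite := fun h => hY4 h.countable
  obtain ⟨I, hI, hIc⟩ := hinf.exists_subset_card_eq R₀
  have hI4 : ∀ x ∈ I, x ∈ Y4 := fun x hx => hI hx
  have hI3 : ∀ x ∈ I, x ∈ Y3 := fun x hx => hY43 (hI4 x hx)
  have hI2 : ∀ x ∈ I, x ∈ Y2 := fun x hx => (hI3 x hx).1
  have hI1 : ∀ x ∈ I, x ∈ Y1 := fun x hx => hY21 (hI2 x hx)
  obtain ⟨idx, hidx1, hidx2⟩ : ∃ idx : J → ℕ, (∀ x ∈ I, idx x < R₀) ∧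
      ∀ x ∈ I, ∀ y ∈ I, idx x = idx y → x = y := by
    refine ⟨fun x => if h : x ∈ I then (I.equivFin ⟨x, h⟩ : ℕ) else 0, ?_, ?_⟩
    · intro x hx
      simp only [dif_pos hx]
      exact (Fin.is_lt _).trans_eq hIc
    · intro x hx y hy h
      simp only [dif_pos hx, dif_pos hy] at h
      exact congrArg Subtype.val (I.equivFin.injective (Fin.ext h))
  -- 5. types
  obtain ⟨f, hf⟩ := exists_cls n hn ι₀ (fun i => by
    obtain ⟨x, hx⟩ := hinf.nonempty
    rw [← h1ι x (hY21 (hY43 hx).1) i]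
    exact hι x i) τ
  let A : J → X → ℕ := fun x α => f (Finset.univ.filter fun j => γ x j = α)
  let a : Fin n → ℕ := fun i => f (Finset.univ.filter fun j => e j i = true)
  have hA : ∀ x ∈ I, ∀ i, A x (γ x i) = a i := by
    intro x hx i
    refine congrArg f (Finset.filter_congr fun j _ => ?_)
    exact h1e x (hI1 x hx) j i
  have ha : ∀ i k, ty n (Nat.pair (a i) k) (ι₀ i) = τ i := by
    intro i k
    obtain ⟨x, hx⟩ := hinf.nonempty
    have hx1 := hY21 (hY43 hx).1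
    refine hf _ ?_ k i (Finset.mem_filter.2 ⟨Finset.mem_univ i, (h1e x hx1 i i).1 rfl⟩)
    intro j hj j' hj' hjj
    refine hinj x j j' ?_ ?_
    · rw [(h1e x hx1 j i).2 (Finset.mem_filter.1 hj).2, (h1e x hx1 j' i).2
        (Finset.mem_filter.1 hj').2]
    · rw [h1ι x hx1, h1ι x hx1, hjj]
  -- 6. the new conditions
  let M : ℕ := (∑ i, Nat.pair (a i) (K₀ + R₀)) + 1
  have hM : ∀ i, ∀ s ≤ R₀, Nat.pair (a i) (K₀ + s) < M := by
    intro i s hs
    have h1 : Nat.pair (a i) (K₀ + s) ≤ Nat.pair (a i) (K₀ + R₀) := by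
      rcases Nat.lt_or_ge s R₀ with h | h
      · exact (Nat.pair_lt_pair_right (a i) (by omega)).le
      · rw [le_antisymm hs h]
    have h2 : Nat.pair (a i) (K₀ + R₀) ≤ ∑ i, Nat.pair (a i) (K₀ + R₀) :=
      Finset.single_le_sum (f := fun i => Nat.pair (a i) (K₀ + R₀)) (fun _ _ => Nat.zero_le _)
        (Finset.mem_univ i)
    omega
  let val : J → X × ℕ → ℕ := fun x z =>
    if ∃ s, R₀ - idx x ≤ s ∧ z.2 = Nat.pair (A x z.1) (K₀ + s) then 2 else 1
  let p2 : J → Cnd X Om1 X := fun x => setC (fill (p1 x) (Finset.univ.image (γ x)) M (val x)) (p1 x)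
  have hp2 : ∀ x, R.LE E ⊤ (p2 x) (p1 x) := fun x => fill_le _ _ _ _
  have hF2 : Fam p2 I D m₀ := by
    have hFI := hF I hI4
    refine ⟨?_, hFI.off, hFI.onk, hFI.ons, hFI.bd⟩
    intro x hx y hy z h1 h2
    by_cases hxy : x = y
    · rw [hxy]
    · have key : ∀ x ∈ I, ∀ y ∈ I, (p1 x).c z ≠ 0 →
          ¬ ((p1 y).c z = 0 ∧ z.1 ∈ Finset.univ.image (γ y) ∧ z.2 < M) := by
        rintro x hx y hy h3 ⟨h4, h5, _⟩
        have h6 := hp1K x z h3
        rw [h3K x (hI3 x hx), ← h3K y (hI3 y hy)] at h6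
        obtain ⟨j, _, hj⟩ := Finset.mem_image.1 h5
        have h7 := hp1d y j z.2 h6
        rw [hj] at h7
        exact h7 h4
      rcases fill_ne h1 with h3 | h3 <;> rcases fill_ne h2 with h4 | h4
      · exact (fill_old h3).trans ((hFI.cc x hx y hy z h3 h4).trans (fill_old h4).symm)
      · exact absurd h4 (key x hx y hy h3)
      · exact absurd h3 (key y hy x hx h4)
      · exact absurd h4.2.1 (hdis x (hI2 x hx) y (hI2 y hy) hxy z.1 h3.2.1)
  obtain ⟨J', hJ', hJ2, q, hq⟩ := hR p2 I D rfl hIc.ge hF2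
  obtain ⟨x0, hx0, y0, hy0, hxy0⟩ := Finset.one_lt_card.1 (Nat.lt_of_succ_le hJ2)
  -- order the two
  obtain ⟨x, hx, y, hy, hlt⟩ : ∃ x ∈ J', ∃ y ∈ J', idx x < idx y := by
    rcases lt_trichotomy (idx x0) (idx y0) with h | h | h
    · exact ⟨x0, hx0, y0, hy0, h⟩
    · exact absurd (hidx2 x0 (hJ' hx0) y0 (hJ' hy0) h) hxy0
    · exact ⟨y0, hy0, x0, hx0, h⟩
  have hxI := hJ' hx
  have hyI := hJ' hy
  have hxy : x ≠ y := fun h => by
    rw [h] at hlt
    exact lt_irrefl _ hlt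
  have hqx : @LE.le (Pc E) _ q (p2 x) := hq x hx
  have hqy : @LE.le (Pc E) _ q (p2 y) := hq y hy
  refine ⟨x, h1Y x (hI1 x hxI), y, h1Y y (hI1 y hyI), hxy, q,
    (hq x hx).trans ((hp2 x).trans (hp1 x)), (hq y hy).trans ((hp2 y).trans (hp1 y)),
    fun i => ⟨?_, Nat.pair (a i) (K₀ + (R₀ - idx y)), ?_, ?_, ?_, ?_⟩⟩
  · rw [h1ι x (hI1 x hxI), h1ι y (hI1 y hyI)]
  · intro k hk
    rcases Nat.lt_or_ge k K₀ with hkK | hkK
    · -- an old place
      have h1 := hp1d x i k (by rw [h3K x (hI3 x hxI)]; exact hkK)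
      have h2 := hp1d y i k (by rw [h3K y (hI3 y hyI)]; exact hkK)
      have h3 := h3w x (hI3 x hxI) y (hI3 y hyI) i k hkK
      obtain ⟨v, hv⟩ := Nat.exists_eq_succ_of_ne_zero h1
      refine ⟨decide (v ≠ 0), bt_mono hqx (bt_of ?_), bt_mono hqy (bt_of ?_)⟩
      · exact (fill_old h1).trans hv
      · exact (fill_old h2).trans (h3.symm.trans hv)
    · -- a new place
      have hkM : k < M := hk.trans (hM i _ (Nat.sub_le _ _))
      have hnew : ∀ z ∈ I, idx z ≤ idx y → (p2 z).c (γ z i, k) = 0 + 1 := by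
        intro z hz hle
        have h1 : (p1 z).c (γ z i, k) = 0 := by
          by_contra h
          have h2 := hp1K z _ h
          rw [h3K z (hI3 z hz)] at h2
          exact absurd h2 (not_lt.2 hkK)
        refine (fill_new h1 (hmem z i) hkM).trans (if_neg ?_)
        rintro ⟨s, hs1, hs2⟩
        have hs2' : k = Nat.pair (a i) (K₀ + s) := by
          rw [← hA z hz i]
          exact hs2
        rw [hs2'] at hk
        have h3 : Nat.pair (a i) (K₀ + (R₀ - idx y)) ≤ Nat.pair (a i) (K₀ + s) := by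
          rcases Nat.lt_or_ge (R₀ - idx y) s with h | h
          · exact (Nat.pair_lt_pair_right (a i) (by omega)).le
          · have : R₀ - idx y = s := by omega
            rw [this]
        exact absurd hk (not_lt.2 h3)
      exact ⟨false, bt_mono hqx (bt_of (hnew x hxI hlt.le)), bt_mono hqy (bt_of (hnew y hyI le_rfl))⟩
  · -- the bit of `x`
    have hyR := hidx1 y hyI
    have h1 : (p1 x).c (γ x i, Nat.pair (a i) (K₀ + (R₀ - idx y))) = 0 := by
      by_contra h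
      have h2 := hp1K x _ h
      rw [h3K x (hI3 x hxI)] at h2
      have h3 : K₀ + (R₀ - idx y) ≤ Nat.pair (a i) (K₀ + (R₀ - idx y)) := Nat.right_le_pair _ _
      have h4 : Nat.pair (a i) (K₀ + (R₀ - idx y)) < K₀ := h2
      omega
    have h2 : (p2 x).c (γ x i, Nat.pair (a i) (K₀ + (R₀ - idx y))) = 0 + 1 := by
      refine (fill_new h1 (hmem x i) (hM i _ (Nat.sub_le _ _))).trans (if_neg ?_)
      rintro ⟨s, hs1, hs2⟩
      have hs2' : Nat.pair (a i) (K₀ + (R₀ - idx y)) = Nat.pair (A x (γ x i)) (K₀ + s) := hs2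
      rw [hA x hxI i] at hs2'
      have h3 := (Nat.pair_eq_pair.1 hs2').2
      omega
    exact bt_mono hqx (bt_of h2)
  · -- the bit of `y`
    have hyR := hidx1 y hyI
    have h1 : (p1 y).c (γ y i, Nat.pair (a i) (K₀ + (R₀ - idx y))) = 0 := by
      by_contra h
      have h2 := hp1K y _ h
      rw [h3K y (hI3 y hyI)] at h2
      have h3 : K₀ + (R₀ - idx y) ≤ Nat.pair (a i) (K₀ + (R₀ - idx y)) := Nat.right_le_pair _ _
      have h4 : Nat.pair (a i) (K₀ + (R₀ - idx y)) < K₀ := h2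
      omega
    have h2 : (p2 y).c (γ y i, Nat.pair (a i) (K₀ + (R₀ - idx y))) = 1 + 1 := by
      refine (fill_new h1 (hmem y i) (hM i _ (Nat.sub_le _ _))).trans
        (if_pos ⟨R₀ - idx y, le_rfl, ?_⟩)
      show Nat.pair (a i) _ = Nat.pair (A y (γ y i)) _
      rw [hA y hyI i]
    exact bt_mono hqy (bt_of h2)
  · rw [h1ι x (hI1 x hxI)]
    exact ha i _

end Pool.Agent.Lib_helper27.S
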