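import Pool.Agent.Lib_helper27.S.Coh

/-!
# `cov(B) < 𝔠` in the extension
-/

set_option linter.unusedSectionVars false
set_option linter.unusedVariables false

namespace Pool.Agent.Lib_helper27.S

open Fml V Q R Cardinal Set

section

variable {X Lab : Type} {E : Nms X Om1 Lab}

/-- the value at a node can be defined -/
theorem exists_def1 [Nonempty Lab] (p : Cnd X Om1 Lab) (η : Om1) (t : List ℕ) :
    ∃ q, R.LE E ⊤ q p ∧ ∃ v, (q.a η).s t = v + 1 := by
  classical
  obtain ⟨q, h1, h2, h3⟩ := exists_incr' (E := E) p η (t.length + 2)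
  by_cases h : (q.a η).s t = 0
  · have hlen : t.length < bl (q.a η).k := by
      refine lt_of_lt_of_le ?_ (bl_mono h2)
      unfold bl
      have : (t.length + 2) * (t.length + 2 - 1) = (t.length + 2) * (t.length + 1) := rfl
      rw [this]
      nlinarith
    refine ⟨setAt η ⟨(q.a η).k, (q.a η).s.update t 1, (q.a η).F, ?_, (q.a η).hF⟩ q,
      (setAt_le ?_ ⊤).trans h1, 0, ?_⟩
    · intro t' ht'
      by_cases htt : t' = t
      · rw [htt]
        exact hlen
      · rw [Finsupp.update_apply, if_neg htt] at ht'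
        exact (q.a η).hs t' ht'
    · rw [gd_eq]
      refine ⟨?_, ?_, ?_, ?_⟩
      · rw [setAt_self]
      · rw [setAt_self]
        intro t' ht'
        have htt : t' ≠ t := fun htt => ht' (htt ▸ h)
        show ((q.a η).s.update t 1) t' = _
        rw [Finsupp.update_apply, if_neg htt]
      · rw [setAt_self]
      · rw [setAt_self]
        intro e he l h4 h5
        exact absurd h4 (not_le.2 h5)
    · rw [setAt_self]
      show ((q.a η).s.update t 1) t = _
      rw [Finsupp.update_apply, if_pos rfl]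
  · exact ⟨q, h1, (q.a η).s t - 1, by omega⟩

theorem s_mono {p q : Pc E} (hq : q ≤ p) {η : Om1} {t : List ℕ} {v : ℕ}
    (h : (Cnd.a p η).s t = v + 1) : (Cnd.a q η).s t = v + 1 := by
  have h1 := (pc_le.1 hq).2 η (WithTop.coe_lt_top _)
  rw [gd_eq] at h1
  rw [h1.2.1 _ (by rw [h]; exact Nat.succ_ne_zero _), h]

/-- a string as a function with values `0` and `1` -/
def ub (t : List Bool) (i : ℕ) : ℕ := (t.getD i false).toNat

/-- `t` avoids the predictor at `η` in one whole block -/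
def SC (E : Nms X Om1 Lab) (η : Om1) (k : ℕ) (t : List Bool) (q : Pc E) : Prop :=
  ∃ l, k ≤ l ∧ 1 ≤ l ∧ bl (l + 1) ≤ t.length ∧ ∀ n, bl l ≤ n → n < bl (l + 1) →
    ∃ v, (Cnd.a q η).s (hist (ub t) n) = v + 1 ∧ v ≠ ub t n

theorem down_SC (η : Om1) (k : ℕ) : Down (P := Pc E) (SC E η k) := by
  rintro t p q hq ⟨l, h1, h0, h2, h3⟩
  refine ⟨l, h1, h0, h2, fun n hn hn' => ?_⟩
  obtain ⟨v, h4, h5⟩ := h3 n hn hn'
  exact ⟨v, s_mono hq h4, h5⟩

/-- the name of the dense set -/
noncomputable def SCN (E : Nms X Om1 Lab) (η : Om1) (k : ℕ) : Name (Pc E) :=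
  mkQ (List Bool) (strN (Pc E)) (SC E η k)

theorem ub_append {t s : List Bool} {i : ℕ} (hi : i < t.length) : ub (t ++ s) i = ub t i := by
  unfold ub
  rw [List.getD_append _ _ _ _ hi]

/-- density -/
theorem exists_SC [Nonempty Lab] (η : Om1) (k : ℕ) (t : List Bool) (p : Pc E) :
    ∃ q, q ≤ p ∧ ∃ s, t <+: s ∧ SC E η k s q := by
  -- the block
  set l := max (max k (t.length + 2)) 1 with hl
  have hkl : k ≤ l := (le_max_left _ _).trans (le_max_left _ _)
  have htl : t.length + 2 ≤ l := (le_max_right _ _).trans (le_max_left _ _)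
  have hbl : t.length ≤ bl l := by
    refine le_trans ?_ (bl_mono htl)
    unfold bl
    have : (t.length + 2) * (t.length + 2 - 1) = (t.length + 2) * (t.length + 1) := rfl
    rw [this]
    nlinarith
  have key : ∀ j, bl l + j ≤ bl (l + 1) → ∃ q, q ≤ p ∧ ∃ s, t <+: s ∧ s.length = bl l + j ∧
      ∀ n, bl l ≤ n → n < bl l + j → ∃ v, (Cnd.a q η).s (hist (ub s) n) = v + 1 ∧ v ≠ ub s n := by
    intro j
    induction j with
    | zero =>
      intro _
      refine ⟨p, le_rfl, t ++ List.replicate (bl l - t.length) false, List.prefix_append _ _, ?_, ?_⟩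
      · simp only [List.length_append, List.length_replicate]
        omega
      · intro n h1 h2
        omega
    | succ j ih =>
      intro hj
      obtain ⟨q, hq, s, hs1, hs2, hs3⟩ := ih (by omega)
      obtain ⟨q', hq', v, hv⟩ := exists_def1 (E := E) q η (hist (ub s) (bl l + j))
      have hqq : @LE.le (Pc E) _ q' q := hq'
      refine ⟨q', hqq.trans hq, s ++ [decide (v = 0)], hs1.trans (List.prefix_append _ _), ?_, ?_⟩
      · simp only [List.length_append, List.length_singleton]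
        omega
      · intro n h1 h2
        have hh : ∀ n ≤ bl l + j, hist (ub (s ++ [decide (v = 0)])) n = hist (ub s) n := by
          intro n hn
          refine hist_congr fun m hm => ub_append ?_
          omega
        rw [hh n (by omega)]
        rcases Nat.lt_or_ge n (bl l + j) with h3 | h3
        · obtain ⟨v', h4, h5⟩ := hs3 n h1 h3
          refine ⟨v', s_mono hqq h4, ?_⟩
          rw [ub_append (by omega)]
          exact h5
        · obtain rfl : n = bl l + j := by omega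
          refine ⟨v, hv, ?_⟩
          have h4 : ub (s ++ [decide (v = 0)]) (bl l + j) = (decide (v = 0)).toNat := by
            unfold ub
            rw [List.getD_append_right _ _ _ _ (by omega), hs2, Nat.sub_self]
            rfl
          rw [h4]
          by_cases hv0 : v = 0
          · simp [hv0]
          · simp [hv0]
  have hle : bl l ≤ bl (l + 1) := bl_mono (Nat.le_succ l)
  obtain ⟨q, hq, s, h1, h2, h3⟩ := key (bl (l + 1) - bl l) (by omega)
  refine ⟨q, hq, s, h1, l, hkl, le_max_right _ _, by omega, fun n h4 h5 => h3 n h4 (by omega)⟩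

theorem forces_dense [Nonempty Lab] (η : Om1) (k : ℕ) (p : Pc E) :
    Fc p (isDense (oall (Pc E) ℕ) (twoN (Pc E)) (SCN E η k)) := by
  refine ⟨?_, ?_⟩
  · refine (forces_ball nf_basic).2 fun s q hq hs => fc_isStr.2 ?_
    refine ((fmem_mkQ (down_SC η k)).1 hs).imp ?_
    rintro r _ ⟨s', _, h⟩
    exact ⟨s', h⟩
  · refine (forces_ball nf_basic).2 fun L q hq hL s => ?_
    refine (forces_imp nf_basic).2 fun r hr hs => ?_
    have h1 : Fc r (isStr (oall (Pc E) ℕ) (twoN (Pc E)) s) :=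
      forces_bex.2 (Loc.pure fun u hu => ⟨L, fmem_mono (hu.trans hr) hL, Forces.mono nf_basic hu hs⟩)
    refine forces_bex.2 ((fc_isStr.1 h1).bind ?_)
    rintro u hu ⟨t, ht⟩
    intro w hw
    obtain ⟨q', hq', s', h2, h3⟩ := exists_SC η k t w
    refine ⟨q', hq', strN (Pc E) s', fmem_mkQ_of (x := strN (Pc E)) (down_SC η k) h3, ?_⟩
    exact isSubset_congr (feq_symm (feq_mono (hq'.trans hw) ht)) (feq_refl _ _) (strN_sub.2 h2)

/-- the name of the nowhere dense set -/
noncomputable def AC (E : Nms X Om1 Lab) (z : Om1 × ℕ) : Name (Pc E) :=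
  mkSep (RN E) fun x => ball (SCN E z.1 z.2) fun s => neg (isSubset s x)

theorem fmem_AC {z : Om1 × ℕ} {x : Name (Pc E)} {p : Pc E} : fmem x (AC E z) p ↔
    fmem x (RN E) p ∧ Fc p (ball (SCN E z.1 z.2) fun s => neg (isSubset s x)) := by
  refine fmem_mkSep ?_
  intro q a b h
  exact DF.rel (fun z => feq_refl z q) (cv (ball 0 fun s => neg (isSubset s 1)) 2) 2
    (env [SCN E z.1 z.2] a) (env [SCN E z.1 z.2] b)
    (rel_env (r := fun x y => feq x y q) (.cons (feq_refl _ _) .nil) h)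

theorem forces_meager [Nonempty Lab] (hE : ∀ F : ℕ → ℕ → Cnd X Om1 Lab × ℕ, ∃ e, E e = F)
    (z : Om1 × ℕ) (p : Pc E) : Fc p (isMeager (oall (Pc E) ℕ) (twoN (Pc E)) (AC E z)) := by
  refine forces_ex.2 (Loc.pure fun q _ => ⟨mkAll Unit fun _ => SCN E z.1 z.2, ?_, ?_, ?_⟩)
  · refine forces_ex.2 (Loc.pure fun r _ => ⟨mkFn Unit (fun _ => SCN E z.1 z.2)
      (fun _ => onm (Pc E) (0 : ℕ)) fun _ _ => True, ?_⟩)
    refine fc_isInj_of ?_ ?_ ?_ ?_
    · intro i s
      exact ⟨fmem_mkAll_of (), onm_mem_oall _ s⟩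
    · intro x s _ hx
      refine (fmem_mkAll.1 hx).imp ?_
      rintro u _ ⟨i, hi⟩
      exact ⟨i, hi⟩
    · intro i j _ _
      rfl
    · intro i j _ _
      rfl
  · refine (forces_ball nf_basic).2 fun S r hr hS => ?_
    refine Forces.dense nf_basic ((fmem_mkAll.1 hS).imp ?_)
    rintro s _ ⟨_, he⟩
    exact (fc_uni (cv (isDense 0 1 2) 3) 3 (l := [oall (Pc E) ℕ, twoN (Pc E)])
      (l' := [oall (Pc E) ℕ, twoN (Pc E)]) (.cons (feq_refl _ _) (.cons (feq_refl _ _) .nil)) he
      le_rfl).2 (forces_dense z.1 z.2 s)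
  · refine (forces_ball nf_basic).2 fun x r hr hx => ?_
    have h1 := fmem_AC.1 (show fmem x (AC E z) r from hx)
    refine ⟨(fmem_RN hE).1 h1.1, ?_⟩
    exact forces_bex.2 (Loc.pure fun s hs => ⟨SCN E z.1 z.2, fmem_mkAll_of (),
      Forces.mono nf_basic hs h1.2⟩)

/-- every real belongs to one of the nowhere dense sets -/
theorem exists_AC [Nonempty Lab] (hE : ∀ F : ℕ → ℕ → Cnd X Om1 Lab × ℕ, ∃ e, E e = F)
    {x : Name (Pc E)} {p : Pc E} (hx : fmem x (RN E) p) :
    Loc p fun r => ∃ z, fmem x (AC E z) r := by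
  have hf := (fmem_RN hE).1 hx
  obtain ⟨e, η, he1, he2, _⟩ := exists_label1 hE hf
  intro q hq
  obtain ⟨r, hr, hex⟩ := exists_add (E := E) q η e
  have hrq : @LE.le (Pc E) _ r q := hr
  refine ⟨r, hr, (η, (r.a η).k), fmem_AC.2 ⟨fmem_mono (hrq.trans hq) hx, ?_⟩⟩
  refine (forces_ball nf_basic).2 fun s r1 hr1 hs => ?_
  intro r2 hr2 hsub
  obtain ⟨r3, hr3, t, ⟨l, hl, hl1, hlen, hav⟩, ht⟩ := (((fmem_mkQ (down_SC η _)).1 hs).mono
    hr2).exists
  obtain ⟨r4, hr4, hk4, _⟩ := exists_incr' (E := E) r3 η (l + 1)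
  have h43 : @LE.le (Pc E) _ r4 r3 := hr4
  have h4r : @LE.le (Pc E) _ r4 r := h43.trans (hr3.trans (hr2.trans hr1))
  have hgd := (pc_le.1 h4r).2 η (WithTop.coe_lt_top _)
  rw [gd_eq] at hgd
  obtain ⟨r', hr', u, hu, n, hn1, hn2, hn3⟩ := hgd.2.2.2 e hex l hl (by omega) r4 (R.LE.refl _ _)
  obtain ⟨r5, h54, hdec⟩ : ∃ r5 : Pc E, r5 ≤ r4 ∧ ∀ i < bl (l + 1),
      DecV E (R.LE E ⊤) e r5 i (u i) := by
    refine ⟨piece η r' r4, piece_le hr' ⊤, ?_⟩
    intro i hi
    rw [decV_iff (fun b => he1 i b) le_top]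
    exact (hu i hi).mono (piece_eq _ _)
  have hval : ∀ i < bl (l + 1), u i = ub t i := by
    intro i hi
    have hit : i < t.length := lt_of_lt_of_le hi hlen
    have h5 : Fc r5 (app x (onm (Pc E) i) (bnm (Pc E) t[i])) := by
      have h6 := app_strN (List.getElem?_eq_getElem hit) r5
      have h7 : Fc r5 (isSubset (strN (Pc E) t) x) :=
        isSubset_congr (feq_mono (h54.trans h43) ht) (feq_refl _ _)
          (Forces.mono nf_basic (h54.trans (h43.trans hr3)) hsub)
      exact app_iff.2 ((forces_ball nf_basic).1 h7 _ _ le_rfl (app_iff.1 h6))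
    obtain ⟨r6, hr6, h8⟩ := (he2 _ (h54.trans (h4r.trans (hrq.trans hq))) i t[i] h5).exists
    have h9 := (hdec i hi).mono hr6
    rw [h9.unique h8, ub, List.getD_eq_getElem _ _ hit]
  obtain ⟨v, hv1, hv2⟩ := hav n hn1 hn2
  have h10 : hist u n = hist (ub t) n := hist_congr fun m hm => hval m (hm.trans hn2)
  rw [h10, hval n hn2] at hn3
  have h11 := s_mono h43 hv1
  have h12 : ub t n + 1 = v + 1 := hn3.symm.trans h11
  omega

/-- the name of the `α`-th Cohen real -/
theorem forces_cov [Nonempty Lab] (hE : ∀ F : ℕ → ℕ → Cnd X Om1 Lab × ℕ, ∃ e, E e = F)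
    (hX : aleph 2 ≤ #X) (hty : ∀ i j, i ≤ 1 → j ≤ 1 → i ≠ j → ∀ k, ∃ m, k ≤ m ∧
      ty 1 m i ≠ ty 1 m j) (p : Pc E) :
    Fc p (covLtC (oall (Pc E) ℕ) (twoN (Pc E)) (RN E)) := by
  refine forces_ex.2 (Loc.pure fun q _ => ⟨mkAll (Om1 × ℕ) (AC E), ?_, ?_, ?_⟩)
  · refine (forces_ball nf_basic).2 fun A r hr hA => ?_
    refine Forces.dense nf_basic ((fmem_mkAll.1 hA).imp ?_)
    rintro s _ ⟨z, he⟩
    exact (fc_uni (cv (isMeager 0 1 2) 3) 3 (l := [oall (Pc E) ℕ, twoN (Pc E)])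
      (l' := [oall (Pc E) ℕ, twoN (Pc E)]) (.cons (feq_refl _ _) (.cons (feq_refl _ _) .nil)) he
      le_rfl).2 (forces_meager hE z s)
  · refine (forces_ball nf_basic).2 fun x r hr hx => ?_
    refine forces_bex.2 ((exists_AC hE hx).imp ?_)
    rintro s _ ⟨z, hz⟩
    exact ⟨AC E z, fmem_mkAll_of z, hz⟩
  · intro r hr hex
    obtain ⟨r1, hr1, f, hf⟩ := (forces_ex.1 hex).exists
    have key : ∀ α : X, ∃ s, s ≤ r1 ∧ ∃ z, Fc s (app f (xN E 1 (α, 0)) (AC E z)) := by
      intro α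
      have h1 : fmem (xN E 1 (α, 0)) (RN E) r1 := (fmem_RN hE).2 (func_xN 1 (α, 0) r1)
      obtain ⟨s, hs, y, hy, hy'⟩ := (V.func_total hf.1 h1).exists
      obtain ⟨t, ht, z, hz⟩ := (fmem_mkAll.1 hy).exists
      exact ⟨t, ht.trans hs, z, app_congr' (feq_refl _ _) hz (Forces.mono nf_basic ht hy')⟩
    choose s hs z hz using key
    obtain ⟨w, hw⟩ := exists_fiber2 (β := Om1 × ℕ) (by
      rw [mk_prod]
      simp only [lift_id, mk_om1, mk_nat]
      exact (aleph_mul_aleph0 1).le) z hX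
    obtain ⟨α, hα, β, hβ, hαβ, u, hu1, hu2⟩ := ccc_pc E s _ hw
    have h2 := Forces.mono nf_basic hu1 (hz α)
    have h3 := Forces.mono nf_basic hu2 (hz β)
    rw [hα] at h2
    rw [hβ] at h3
    have hu1' : @LE.le (Pc E) _ u (s α) := hu1
    have h4 := V.inj_single (Forces.mono nf_basic (hu1'.trans (hs α)) hf) h2 h3
    exact xN_ne hty (Nat.zero_le 1) (Nat.zero_le 1) (fun h => hαβ (congrArg Prod.fst h)) u h4

end

end Pool.Agent.Lib_helper27.S
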