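import Pool.Agent.Lib_helper27.S.Coh

/-!
# The entangled sets
-/

set_option linter.unusedSectionVars false
set_option linter.unusedVariables false

namespace Pool.Agent.Lib_helper27.S

open Fml V Q R Cardinal Set

section

variable {P : Type} [Preorder P] {Q Q' : ℕ × Bool → P → Prop}

theorem not_lex (hQ : IsB Q) (hQ' : IsB Q') {p : P} {m : ℕ}
    (h : ∀ k < m, ∃ b, Q (k, b) p ∧ Q' (k, b) p) (h1 : Q (m, true) p) (h2 : Q' (m, false) p) :
    ¬ Fc p (lexLt (oall P ℕ) (bnm P false) (bnm P true) (fnB Q) (fnB Q')) := by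
  intro h3
  obtain ⟨r, hr, m', h4, h5, h6⟩ := (lex_conv hQ hQ' h3).exists
  rcases lt_trichotomy m m' with h7 | h7 | h7
  · obtain ⟨b, h8, h9⟩ := h4 m h7
    have h10 := hQ.single _ _ _ _ h8 (hQ.down _ _ _ hr h1)
    have h11 := hQ'.single _ _ _ _ h9 (hQ'.down _ _ _ hr h2)
    rw [h10] at h11
    exact absurd h11 (by decide)
  · subst h7
    exact absurd (hQ.single _ _ _ _ h5 (hQ.down _ _ _ hr h1)) (by decide)
  · obtain ⟨b, h8, h9⟩ := h m' h7
    have h10 := hQ.single _ _ _ _ h5 (hQ.down _ _ _ hr h8)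
    have h11 := hQ'.single _ _ _ _ h6 (hQ'.down _ _ _ hr h9)
    rw [← h10] at h11
    exact absurd h11 (by decide)

/-- congruence of `app` in the function -/
theorem app_congr_f {f f' x y : Name P} {p : P} (hf : feq f f' p) (h : Fc p (app f x y)) :
    Fc p (app f' x y) := app_iff.2 (fmem_congr_right hf (app_iff.1 h))

end

section

variable {X Lab : Type} {E : Nms X Om1 Lab}

/-- the index set of `EN` -/
abbrev IN (X : Type) (n : ℕ) : Type := {z : X × ℕ // z.2 ≤ n}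

/-- the name of the set of all `c_α + t_i` -/
noncomputable def EN (E : Nms X Om1 Lab) (n : ℕ) : Name (Pc E) :=
  mkAll (IN X n) fun z => xN E n z.1

theorem fmem_EN {n : ℕ} {z : Name (Pc E)} {p : Pc E} : fmem z (EN E n) p ↔
    Loc p fun r => ∃ i : IN X n, feq z (xN E n i.1) r := fmem_mkAll

theorem xN_mem (n : ℕ) (i : IN X n) (p : Pc E) : fmem (xN E n i.1) (EN E n) p :=
  fmem_mkAll_of (x := fun z : IN X n => xN E n z.1) i

theorem EN_sub [Nonempty Lab] (hE : ∀ F : ℕ → ℕ → Cnd X Om1 Lab × ℕ, ∃ e, E e = F) (n : ℕ)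
    (p : Pc E) : Fc p (isSubset (EN E n) (RN E)) := by
  refine (forces_ball nf_basic).2 fun z q hq hz => ?_
  refine fmem_dense ((fmem_EN.1 hz).imp ?_)
  rintro r _ ⟨i, hi⟩
  exact fmem_congr_left (feq_symm hi) ((fmem_RN hE).2 (func_xN n i.1 r))

/-- tuples -/
noncomputable def tN (E : Nms X Om1 Lab) (n : ℕ) {k : ℕ} (g : Fin k → IN X n) : Name (Pc E) :=
  finN (fun z : IN X n => xN E n z.1) g

theorem app_tN {n k : ℕ} (g : Fin k → IN X n) (i : Fin k) (p : Pc E) :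
    Fc p (app (tN E n g) (onm (Pc E) (i : ℕ)) (xN E n (g i).1)) :=
  app_finN (x := fun z : IN X n => xN E n z.1) (g := g) i p

theorem func_tN {n k : ℕ} (g : Fin k → IN X n) (p : Pc E) :
    Fc p (isFunc (tN E n g) (onm (Pc E) k) (EN E n)) :=
  func_finN fun i => xN_mem n (g i) p

/-- the types of names of tuples -/
theorem forces_ent [Nonempty Lab] [Nonempty X] (hX : aleph 2 ≤ #X)
    (hE : ∀ F : ℕ → ℕ → Cnd X Om1 Lab × ℕ, ∃ e, E e = F) {n : ℕ} (hn : 1 ≤ n)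
    (hty : ∀ i j, i ≤ n → j ≤ n → i ≠ j → ∀ k, ∃ m, k ≤ m ∧ ty n m i ≠ ty n m j)
    (hcore : ∀ (p : X → Pc E) (γ : X → Fin n → X)
      (ι : X → Fin n → ℕ) (hι : ∀ x i, ι x i ≤ n)
      (hinj : ∀ x i j, γ x i = γ x j → ι x i = ι x j → i = j)
      (hdisj : ∀ x ∈ (univ : Set X), ∀ y ∈ (univ : Set X), x ≠ y → (∃ r, r ≤ p x ∧ r ≤ p y) →
        ∀ i j, ¬ (γ x i = γ y j ∧ ι x i = ι y j))
      (τ : Fin n → Bool),
      ∃ x ∈ (univ : Set X), ∃ y ∈ (univ : Set X), x ≠ y ∧ ∃ r : Pc E, r ≤ p x ∧ r ≤ p y ∧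
        ∀ i, ι x i = ι y i ∧
        ∃ m, (∀ k < m, ∃ b, Bt (show Cnd X Om1 Lab from r) (γ x i) k b ∧
            Bt (show Cnd X Om1 Lab from r) (γ y i) k b) ∧
          Bt (show Cnd X Om1 Lab from r) (γ x i) m false ∧
          Bt (show Cnd X Om1 Lab from r) (γ y i) m true ∧ ty n m (ι x i) = τ i) (p : Pc E) :
    Fc p (isEnt (oall (Pc E) ℕ) (twoN (Pc E)) (RN E) (bnm (Pc E) false) (bnm (Pc E) true)
      (onm (Pc E) n) (EN E n)) := by
  intro F
  refine (forces_imp nf_basic).2 fun q hq ⟨hF1, hF2, hF3⟩ t => ?_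
  refine (forces_imp nf_basic).2 fun r hr ht => ?_
  refine forces_bex.2 fun r' hr' => ?_
  obtain ⟨s0, hs0, f, hf⟩ := ((forces_ex.1 hF3).mono (show @LE.le (Pc E) _ r' q from
    le_trans hr' hr)).exists
  obtain ⟨s1, hs1, τ, hτ, heτ⟩ := ((func_str ht).mono (show @LE.le (Pc E) _ s0 r from
    le_trans hs0 hr')).exists
  have hs1r : @LE.le (Pc E) _ s1 r' := hs1.trans hs0
  have hs1q : @LE.le (Pc E) _ s1 q := hs1r.trans (hr'.trans hr)
  have hf1 := Forces.mono nf_basic hs1 hf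
  have key : ∀ α : X, ∃ s, s ≤ s1 ∧ ∃ g : Fin n → IN X n,
      Fc s (app f (xN E n (α, 0)) (tN E n g)) ∧ fmem (tN E n g) F s ∧ Function.Injective g := by
    intro α
    have h1 : fmem (xN E n (α, 0)) (RN E) s1 := (fmem_RN hE).2 (func_xN n (α, 0) s1)
    obtain ⟨s, hs, y, hy, hy'⟩ := (V.func_total hf1.1.1 h1).exists
    have h2 : Fc s (isInj y (onm (Pc E) n) (EN E n)) :=
      (forces_ball nf_basic).1 hF1 y s (hs.trans hs1q) hy
    obtain ⟨u, hu, g, hg⟩ := (func_fin (x := fun z : IN X n => xN E n z.1) h2.1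
      fun q _ z hz => fmem_EN.1 hz).exists
    refine ⟨u, hu.trans hs, g, app_congr' (feq_refl _ _) hg (Forces.mono nf_basic hu hy'),
      fmem_congr_left hg (fmem_mono hu hy), fun i j hij => ?_⟩
    have h3 : Fc u (app y (onm (Pc E) (i : ℕ)) (xN E n (g i).1)) :=
      app_congr_f (feq_symm hg) (app_tN g i u)
    have h4 : Fc u (app y (onm (Pc E) (j : ℕ)) (xN E n (g i).1)) := by
      rw [hij]
      exact app_congr_f (feq_symm hg) (app_tN g j u)
    exact Fin.ext (onm_inj (V.inj_single (Forces.mono nf_basic hu h2) h3 h4))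
  choose s hs g hg hgF hgi using key
  -- different tuples are disjoint
  have hdis : ∀ α β : X, α ≠ β → ∀ r, r ≤ s α → r ≤ s β →
      Fc r (disjT (tN E n (g α)) (tN E n (g β))) := by
    intro α β hαβ r h1 h2
    have h3 := (forces_ball nf_basic).1 ((forces_ball nf_basic).1 hF2 _ _
      (h1.trans ((hs α).trans hs1q)) (fmem_mono h1 (hgF α))) _ r le_rfl (fmem_mono h2 (hgF β))
    refine Forces.dense nf_basic ((forces_or.1 h3).imp ?_)
    rintro u hu (h4 | h4)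
    · exfalso
      have h5 := Forces.mono nf_basic (hu.trans h1) (hg α)
      have h6 := Forces.mono nf_basic (hu.trans h2) (hg β)
      have h7 := V.inj_single (Forces.mono nf_basic (hu.trans (h1.trans (hs α))) hf1.1)
        (app_congr' (feq_refl _ _) h4 h5) h6
      exact xN_ne hty (Nat.zero_le n) (Nat.zero_le n)
        (fun h => hαβ (congrArg Prod.fst h)) u h7
    · exact h4
  obtain ⟨α, _, β, _, hαβ, v, hv1, hv2, hv⟩ := hcore s (fun α i => (g α i).1.1)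
    (fun α i => (g α i).1.2) (fun α i => (g α i).2)
    (fun α i j h1 h2 => hgi α (Subtype.ext (Prod.ext h1 h2)))
    (by
      rintro α _ β _ hαβ ⟨r, h1, h2⟩ i j ⟨h3, h4⟩
      have h5 := hdis α β hαβ r h1 h2 (onm (Pc E) (i : ℕ)) (onm (Pc E) (j : ℕ))
        (xN E n (g α i).1)
      have h6 : g α i = g β j := Subtype.ext (Prod.ext h3 h4)
      refine h5 r le_rfl ⟨app_tN _ i r, ?_⟩
      rw [h6]
      exact app_tN _ j r)
    (fun i => τ.getD i false)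
  refine ⟨v, hv1.trans ((hs α).trans hs1r), tN E n (g α), fmem_mono hv1 (hgF α),
    forces_bex.2 (Loc.pure fun w hw => ⟨tN E n (g β), fmem_mono (hw.trans hv2) (hgF β),
      hdis α β hαβ w (hw.trans hv1) (hw.trans hv2), ?_⟩)⟩
  refine (forces_ball nf_basic).2 fun i' w1 hw1 hi' x y => ?_
  refine (forces_imp nf_basic).2 fun w2 hw2 ⟨hx, hy⟩ => ?_
  refine Forces.dense nf_basic (((fmem_onm.1 hi').mono hw2).imp ?_)
  rintro w3 hw3 ⟨i₀, hi₀, hei⟩
  have h3v : @LE.le (Pc E) _ w3 v := hw3.trans (hw2.trans (hw1.trans hw))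
  obtain ⟨hιe, m, hb, hb1, hb2, hty'⟩ := hv ⟨i₀, hi₀⟩
  -- the entries
  have hx' : feq x (xN E n (g α ⟨i₀, hi₀⟩).1) w3 :=
    V.func_single (func_tN (g α) w3) (app_congr' hei (feq_refl _ _)
      (Forces.mono nf_basic hw3 hx)) (app_tN (g α) ⟨i₀, hi₀⟩ w3)
  have hy' : feq y (xN E n (g β ⟨i₀, hi₀⟩).1) w3 :=
    V.func_single (func_tN (g β) w3) (app_congr' hei (feq_refl _ _)
      (Forces.mono nf_basic hw3 hy)) (app_tN (g β) ⟨i₀, hi₀⟩ w3)
  have ht' : feq t (strN (Pc E) τ) w3 := feq_mono (h3v.trans (hv1.trans (hs α))) heτ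
  refine (fc_uni (cv (iff (app 0 1 2) (lexLt 3 2 4 5 6)) 7) 7
    (l := [t, i', bnm (Pc E) false, oall (Pc E) ℕ, bnm (Pc E) true, x])
    (l' := [strN (Pc E) τ, onm (Pc E) i₀, bnm (Pc E) false, oall (Pc E) ℕ, bnm (Pc E) true,
      xN E n (g α ⟨i₀, hi₀⟩).1])
    (.cons ht' (.cons hei (.cons (feq_refl _ _) (.cons (feq_refl _ _) (.cons (feq_refl _ _)
      (.cons hx' .nil)))))) hy' le_rfl).2 ?_
  show Fc w3 (iff (app (strN (Pc E) τ) (onm (Pc E) i₀) (bnm (Pc E) false))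
    (lexLt (oall (Pc E) ℕ) (bnm (Pc E) false) (bnm (Pc E) true) (xN E n (g α ⟨i₀, hi₀⟩).1)
      (xN E n (g β ⟨i₀, hi₀⟩).1)))
  have hlen : i₀ < τ.length := by
    rw [hτ]
    exact hi₀
  have happ : ∀ w4, w4 ≤ w3 → (Fc w4 (app (strN (Pc E) τ) (onm (Pc E) i₀) (bnm (Pc E) false)) ↔
      τ[i₀] = false) := by
    intro w4 hw4
    have h5 := app_strN (List.getElem?_eq_getElem hlen) w4
    constructor
    · intro h6
      exact bnm_inj (V.func_single (strN_func τ w4) h5 h6)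
    · intro h6
      rw [h6] at h5
      exact h5
  have hτi : τ.getD i₀ false = τ[i₀] := List.getD_eq_getElem _ _ hlen
  have hty2 : ty n m (g α ⟨i₀, hi₀⟩).1.2 = τ[i₀] := hty'.trans hτi
  have hty3 : ty n m (g β ⟨i₀, hi₀⟩).1.2 = τ[i₀] := by
    rw [← hty2]
    exact congrArg (ty n m) hιe.symm
  have hb' : ∀ k < m, ∃ b, QC E n (g α ⟨i₀, hi₀⟩).1.1 (g α ⟨i₀, hi₀⟩).1.2 (k, b) v ∧
      QC E n (g β ⟨i₀, hi₀⟩).1.1 (g β ⟨i₀, hi₀⟩).1.2 (k, b) v := by
    intro k hk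
    obtain ⟨b, h5, h6⟩ := hb k hk
    refine ⟨xor b (ty n k (g α ⟨i₀, hi₀⟩).1.2), ?_, ?_⟩
    · show Bt v _ k (xor (xor b _) _)
      simpa using h5
    · show Bt v _ k (xor (xor b _) _)
      have h7 : (g α ⟨i₀, hi₀⟩).1.2 = (g β ⟨i₀, hi₀⟩).1.2 := hιe
      rw [h7]
      simpa using h6
  have hc1 : QC E n (g α ⟨i₀, hi₀⟩).1.1 (g α ⟨i₀, hi₀⟩).1.2 (m, τ[i₀]) v := by
    show Bt v _ m (xor τ[i₀] (ty n m _))
    rw [hty2]
    simpa using hb1
  have hc2 : QC E n (g β ⟨i₀, hi₀⟩).1.1 (g β ⟨i₀, hi₀⟩).1.2 (m, !τ[i₀]) v := by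
    show Bt v _ m (xor (!τ[i₀]) (ty n m _))
    rw [hty3]
    simpa using hb2
  refine (forces_iff nf_basic).2 fun w4 hw4 => (happ w4 hw4).trans ?_
  have h4v : @LE.le (Pc E) _ w4 v := hw4.trans h3v
  have hB1 := isB_QC (E := E) n (g α ⟨i₀, hi₀⟩).1.1 (g α ⟨i₀, hi₀⟩).1.2
  have hB2 := isB_QC (E := E) n (g β ⟨i₀, hi₀⟩).1.1 (g β ⟨i₀, hi₀⟩).1.2
  have hd1 := fun k (hk : k < m) => (hb' k hk).imp fun b h =>
    (⟨hB1.down _ _ _ h4v h.1, hB2.down _ _ _ h4v h.2⟩ : _ ∧ _)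
  have hd2 := hB1.down _ _ _ h4v hc1
  have hd3 := hB2.down _ _ _ h4v hc2
  cases hcase : τ[i₀] with
  | false =>
    rw [hcase] at hd2 hd3
    exact iff_of_true rfl (lex_of hB1 hB2 hd1 hd2 hd3)
  | true =>
    rw [hcase] at hd2 hd3
    exact iff_of_false (by decide) (not_lex hB1 hB2 hd1 hd2 hd3)

end

end Pool.Agent.Lib_helper27.S
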