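import Pool.Agent.Lib_helper27.S.Bits
import Pool.Agent.Lib_helper27.R.Pred

/-!
# Every name of a real is given by a label
-/

set_option linter.unusedSectionVars false
set_option linter.unusedVariables false

namespace Pool.Agent.Lib_helper27.S

open Fml V Q R Cardinal Set

theorem om1_bdd {S : Set Om1} (hS : #S ≤ ℵ₀) : ∃ b, ∀ x ∈ S, x < b := by
  have h1 : ¬ IsCofinal S := by
    intro h
    have h2 := Order.cof_le h
    have h3 : (aleph 1 : Cardinal.{0}) = Order.succ ℵ₀ := by simp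
    have h4 : (ℵ₀ : Cardinal.{0}) < (aleph 1 : Cardinal.{0}).ord.cof := by
      rw [h3, (isRegular_succ le_rfl).cof_ord]
      exact Order.lt_succ _
    rw [← Ordinal.cof_toType] at h4
    exact absurd (h2.trans hS) (not_le.2 h4)
  rw [not_isCofinal_iff] at h1
  obtain ⟨ζ, hζ⟩ := h1
  exact ⟨ζ, fun x hx => hζ x hx⟩

theorem om1_bdd_range {ι : Type} [Countable ι] (f : ι → Om1) : ∃ b, ∀ i, f i < b := by
  obtain ⟨b, hb⟩ := om1_bdd (S := range f) (mk_range_le.trans mk_le_aleph0)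
  exact ⟨b, fun i => hb _ ⟨i, rfl⟩⟩

section

variable {X Lab : Type} {E : Nms X Om1 Lab}

/-- the function from `ω` to `2` given by a label -/
def QL (E : Nms X Om1 Lab) (e : Lab) : ℕ × Bool → Pc E → Prop :=
  fun z q => ∃ v, DecV E (R.LE E ⊤) e q z.1 v ∧ z.2 = decide (v ≠ 0)

theorem isB_QL (e : Lab) : IsB (QL E e) where
  down := by
    rintro ⟨m, b⟩ p q hq ⟨v, h1, h2⟩
    exact ⟨v, h1.mono hq, h2⟩
  total := by
    intro m p q hq
    obtain ⟨t, ht, v, hv⟩ := exists_decV (E := E) (ξ := ⊤) e q m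
    exact ⟨t, ht, decide (v ≠ 0), v, hv, rfl⟩
  single := by
    rintro m b b' p ⟨v, h1, rfl⟩ ⟨v', h2, rfl⟩
    rw [h1.unique h2]

/-- the name of the real given by a label -/
noncomputable def xE (E : Nms X Om1 Lab) (e : Lab) : Name (Pc E) := fnB (QL E e)

theorem exists_label1 [Nonempty Lab] (hE : ∀ F : ℕ → ℕ → Cnd X Om1 Lab × ℕ, ∃ e, E e = F)
    {f : Name (Pc E)} {p : Pc E} (hf : Fc p (isFunc f (oall (Pc E) ℕ) (twoN (Pc E)))) :
    ∃ (e : Lab) (η : Om1), (∀ i b, Below (η : WithTop Om1) (E e i b).1) ∧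
      (∀ q, q ≤ p → ∀ (m : ℕ) (b : Bool), Fc q (app f (onm (Pc E) m) (bnm (Pc E) b)) →
        Loc q fun r => DecV E (R.LE E ⊤) e r m b.toNat) ∧ feq f (xE E e) p := by
  classical
  let D : ℕ → Set (Pc E) := fun m => {q | q ≤ p ∧ ∃ b, Fc q (app f (onm (Pc E) m) (bnm (Pc E) b))}
  have hloc : ∀ m : ℕ, Loc p fun r => ∃ b, Fc r (app f (onm (Pc E) m) (bnm (Pc E) b)) := by
    intro m
    refine (V.func_total hf (onm_mem_oall m p)).bind ?_
    rintro q hq ⟨y, hy, hy'⟩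
    refine (fmem_two.1 hy).imp ?_
    rintro r hr ⟨b, hb⟩
    exact ⟨b, app_congr' (feq_refl _ _) hb (Forces.mono nf_basic hr hy')⟩
  have hsing : ∀ q, q ≤ p → ∀ (m : ℕ) (b b' : Bool), Fc q (app f (onm (Pc E) m) (bnm (Pc E) b)) →
      Fc q (app f (onm (Pc E) m) (bnm (Pc E) b')) → b = b' := fun q hq m b b' h1 h2 =>
    bnm_inj (V.func_single (Forces.mono nf_basic hq hf) h1 h2)
  choose A hAD hA hmax using fun m => exists_max_antichain (D m)
  have hcnt : ∀ m, (A m).Countable := fun m => CCC.antichain (P := Pc E) (ccc_pc E) (hA m)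
  have hne : ∀ m, (A m).Nonempty := by
    intro m
    obtain ⟨r, hr, hb⟩ := (hloc m).exists
    obtain ⟨a, ha, _⟩ := hmax m r ⟨hr, hb⟩
    exact ⟨a, ha⟩
  choose en hen using fun m => (hcnt m).exists_eq_range (hne m)
  have henA : ∀ m b, en m b ∈ A m := by
    intro m b
    rw [hen m]
    exact ⟨b, rfl⟩
  choose hq0 bv hbv using fun m b => hAD m (henA m b)
  obtain ⟨e, he⟩ := hE fun n b => (en n b, (bv n b).toNat)
  have hsup : ∀ z : ℕ × ℕ, ∃ β : Om1, ∀ ζ ∈ (Cnd.a (en z.1 z.2)).support, ζ < β := by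
    intro z
    obtain ⟨β, hβ⟩ := om1_bdd (S := ((Cnd.a (en z.1 z.2)).support : Set Om1))
      (le_aleph0_iff_set_countable.2 (Finset.countable_toSet _))
    exact ⟨β, fun ζ hζ => hβ ζ hζ⟩
  choose β hβ using hsup
  obtain ⟨η, hη⟩ := om1_bdd_range β
  have hdec : ∀ q, q ≤ p → ∀ (m : ℕ) (b : Bool), Fc q (app f (onm (Pc E) m) (bnm (Pc E) b)) →
      Loc q fun r => DecV E (R.LE E ⊤) e r m b.toNat := by
    intro q hq m b hb r hr
    obtain ⟨a, ha, s, hs1, hs2⟩ := hmax m r ⟨hr.trans hq, b, Forces.mono nf_basic hr hb⟩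
    rw [hen m] at ha
    obtain ⟨k, rfl⟩ := ha
    have hex : ∃ k, s ≤ en m k := ⟨k, hs2⟩
    refine ⟨s, hs1, Or.inl ⟨Nat.find hex, ?_, ?_, ?_⟩⟩
    · rw [he]
      exact Nat.find_spec hex
    · rw [he]
      show (bv m (Nat.find hex)).toNat = b.toNat
      rw [hsing s (hs1.trans (hr.trans hq)) m _ _ (Forces.mono nf_basic (Nat.find_spec hex)
        (hbv m (Nat.find hex))) (Forces.mono nf_basic (hs1.trans hr) hb)]
    · intro k' hk' t ht1 ht2
      rw [he] at ht2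
      have h1 : en m k' = en m (Nat.find hex) := hA m _ (henA m k') _ (henA m _)
        ⟨t, ht2, le_trans (show @LE.le (Pc E) _ t s from ht1) (Nat.find_spec hex)⟩
      refine Nat.find_min hex hk' ?_
      rw [h1]
      exact Nat.find_spec hex
  refine ⟨e, η, ?_, hdec, ?_⟩
  · intro i b ζ hζ
    rw [he]
    by_contra hcon
    have h1 := hβ (i, b) ζ (Finsupp.mem_support_iff.2 hcon)
    exact absurd (h1.trans (hη _)) (not_lt.2 (WithTop.coe_le_coe.1 hζ))
  · refine feq_fnB (isB_QL e) hf fun q hq m b hb => (hdec q hq m b hb).imp ?_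
    intro r _ h
    refine ⟨_, h, ?_⟩
    cases b <;> rfl

/-- the name of the set of reals -/
noncomputable def RN (E : Nms X Om1 Lab) : Name (Pc E) := mkAll Lab (xE E)

theorem func_xE (e : Lab) (p : Pc E) :
    Fc p (isFunc (xE E e) (oall (Pc E) ℕ) (twoN (Pc E))) := func_fnB (isB_QL e) p

theorem fmem_RN [Nonempty Lab] (hE : ∀ F : ℕ → ℕ → Cnd X Om1 Lab × ℕ, ∃ e, E e = F)
    {f : Name (Pc E)} {p : Pc E} :
    fmem f (RN E) p ↔ Fc p (isFunc f (oall (Pc E) ℕ) (twoN (Pc E))) := by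
  constructor
  · intro h
    refine Forces.dense nf_basic ((fmem_mkAll.1 h).imp ?_)
    rintro r _ ⟨e, he⟩
    exact isFunc_congr (feq_symm he) (feq_refl _ _) (feq_refl _ _) (func_xE e r)
  · intro h
    obtain ⟨e, _, _, _, he⟩ := exists_label1 hE h
    exact fmem_mkAll.2 (Loc.pure fun r hr => ⟨e, feq_mono hr he⟩)

theorem forces_pow [Nonempty Lab] (hE : ∀ F : ℕ → ℕ → Cnd X Om1 Lab × ℕ, ∃ e, E e = F)
    (p : Pc E) : Fc p (isPow (oall (Pc E) ℕ) (twoN (Pc E)) (RN E)) := by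
  intro z
  refine (forces_iff nf_basic).2 fun q hq => ?_
  exact fmem_RN hE

end

end Pool.Agent.Lib_helper27.S
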