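import Pool.Agent.Lib_helper27.S.Neg
import Pool.Agent.Lib_helper27.S.Cov
import Pool.Agent.Lib_helper27.S.Core
import Pool.Agent.Lib_helper27.Q.TPV
import Pool.Agent.Lib_helper72.SB.D1

/-!
# The main theorem
-/

set_option linter.unusedSectionVars false
set_option linter.unusedVariables false

namespace Pool.Agent.Lib_helper27.S

open Fml V Q R Cardinal Set

theorem hty_one : ∀ i j, i ≤ 1 → j ≤ 1 → i ≠ j → ∀ k, ∃ m, k ≤ m ∧ ty 1 m i ≠ ty 1 m j := by
  have h01 : ∀ m, ty 1 m 0 ≠ ty 1 m 1 := by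
    intro m h
    obtain ⟨i, hi, h1⟩ := ty_ne_pr 1 m le_rfl (!(ty 1 m 0))
    interval_cases i
    · revert h1
      cases ty 1 m 0 <;> simp
    · rw [← h] at h1
      revert h1
      cases ty 1 m 0 <;> simp
  intro i j hi hj hij k
  refine ⟨k, le_rfl, ?_⟩
  interval_cases i <;> interval_cases j
  · exact absurd rfl hij
  · exact h01 k
  · exact (h01 k).symm
  · exact absurd rfl hij

theorem hty_two {n : ℕ} (hn : 2 ≤ n) :
    ∀ i j, i ≤ n → j ≤ n → i ≠ j → ∀ k, ∃ m, k ≤ m ∧ ty n m i ≠ ty n m j := by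
  classical
  intro i j hi hj hij k
  obtain ⟨a, ha⟩ := exists_ty_pr n {i, j} (by
    intro x hx
    rcases Finset.mem_insert.1 hx with rfl | hx
    · exact hi
    · rw [Finset.mem_singleton.1 hx]
      exact hj) ((Finset.card_le_two).trans hn) (by omega) (fun x => decide (x = i))
  refine ⟨Nat.pair a k, Nat.right_le_pair a k, ?_⟩
  rw [ha k i (Finset.mem_insert_self _ _),
    ha k j (Finset.mem_insert_of_mem (Finset.mem_singleton_self _))]
  have h1 : (decide (i = i) : Bool) = true := decide_eq_true rfl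
  have h2 : (decide (j = i) : Bool) = false := decide_eq_false fun h => hij h.symm
  rw [h1, h2]
  decide

section

variable {X : Type} [LinearOrder X] [WellFoundedLT X] [Nonempty X] {E : Nms X Om1 X}
  (hX : aleph 2 ≤ #X) (hE : ∀ F : ℕ → ℕ → Cnd X Om1 X × ℕ, ∃ e, E e = F)

include hX hE

theorem forces_star (p : Pc E) :
    Fc p (starAx (oall (Pc E) ℕ) (twoN (Pc E)) (RN E) (bnm (Pc E) false) (bnm (Pc E) true)) := by
  refine (forces_ball nf_basic).2 fun x q _ hx => ?_
  refine (forces_imp nf_basic).2 fun r hr hl => ?_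
  refine Forces.dense nf_basic (((fmem_oall.1 hx).mono hr).imp ?_)
  rintro s hs ⟨n, hn⟩
  refine (fc_uni (cv (ex fun E => and (isSubset E 2) (and (isEnt 0 1 2 3 4 5 E)
    (all fun n' => imp (isSuc n' 5) (neg (isEnt 0 1 2 3 4 n' E))))) 6) 6
    (l := [oall (Pc E) ℕ, twoN (Pc E), RN E, bnm (Pc E) false, bnm (Pc E) true])
    (l' := [oall (Pc E) ℕ, twoN (Pc E), RN E, bnm (Pc E) false, bnm (Pc E) true])
    (.cons (feq_refl _ _) (.cons (feq_refl _ _) (.cons (feq_refl _ _) (.cons (feq_refl _ _)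
      (.cons (feq_refl _ _) .nil))))) hn le_rfl).2 ?_
  have h1 : fmem (onm (Pc E) (1 : ℕ)) (onm (Pc E) n) s :=
    fmem_congr_left (feq_b1 s) (fmem_congr_right hn (fmem_mono hs hl))
  have hn1 : 1 < n := onm_mem_iff.1 h1
  have hty := hty_two (n := n) hn1
  refine forces_ex.2 (Loc.pure fun t _ => ⟨EN E n, EN_sub hE n t,
    forces_ent hX hE hn1.le hty ?_ t, ?_⟩)
  · intro p γ ι hι hinj hdisj τ
    exact ent_core_pr E univ (fun h => by
      have h2 : #X ≤ ℵ₀ := by
        have h3 := le_aleph0_iff_set_countable.2 h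
        rwa [mk_univ] at h3
      exact absurd ((aleph0_lt_aleph_one.trans (aleph_lt_aleph.2 (by norm_num))).trans_le
        (hX.trans h2)) (lt_irrefl _)) n hn1.le p γ ι hι hinj hdisj τ
  · intro n'
    refine (forces_imp nf_basic).2 fun u hu hsuc => ?_
    have h2 := fc_isSuc hsuc
    intro v hv h3
    have h4 : feq n' (onm (Pc E) (n + 1)) v := feq_mono hv h2
    have h5 := (fc_uni (cv (isEnt 0 1 2 3 4 6 5) 7) 7
      (l := [oall (Pc E) ℕ, twoN (Pc E), RN E, bnm (Pc E) false, bnm (Pc E) true, EN E n])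
      (l' := [oall (Pc E) ℕ, twoN (Pc E), RN E, bnm (Pc E) false, bnm (Pc E) true, EN E n])
      (.cons (feq_refl _ _) (.cons (feq_refl _ _) (.cons (feq_refl _ _) (.cons (feq_refl _ _)
        (.cons (feq_refl _ _) (.cons (feq_refl _ _) .nil)))))) h4 le_rfl).1 h3
    exact forces_not_ent hty (fun m b => ty_ne_pr n m hn1.le b) v h5

theorem forces_main (p : Pc E) : Fc p (covLtStar : Fml (Name (Pc E))) := by
  refine forces_ex.2 (Loc.pure fun p1 _ => ⟨oall (Pc E) ℕ, ?_⟩)
  refine forces_ex.2 (Loc.pure fun p2 _ => ⟨twoN (Pc E), ?_⟩)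
  refine forces_ex.2 (Loc.pure fun p3 _ => ⟨RN E, ?_⟩)
  refine forces_ex.2 (Loc.pure fun p4 _ => ⟨bnm (Pc E) false, ?_⟩)
  refine forces_ex.2 (Loc.pure fun q _ => ⟨bnm (Pc E) true, ?_⟩)
  refine ⟨omega_isOmega q, isTwo_name q, forces_pow hE q, ?_, ?_, forces_cov hE hX hty_one q,
    forces_star hX hE q⟩
  · intro y r hr hy
    exact not_fmem_mkEmpty hy
  · exact fc_upair_iff.2 (feq_refl _ _)

theorem holds_main : Holds (extE (Pc E)) (covLtStar : Fml (Ext (Pc E))) := by
  have h : Lk (covLtStar : Fml (Ext (Pc E))) (covLtStar : Fml (Name (Pc E))) :=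
    DF.lk (cv covLtStar 0) 0 fun _ => (mkEmpty : Name (Pc E))
  exact (los h).2 (T_of_forces fun p => forces_main hX hE p)

end

/-- There is a model of ZFC in which `cov(B) < 𝔠` and (∗) holds. -/
theorem main : ∃ (M : Type 1) (E : M → M → Prop), IsModelOfZFC E ∧ Holds E covLtStar := by
  obtain ⟨X, hX1, hX2, hX3, E, hX, hE⟩ := exists_labels_pr
  exact ⟨Ext (Pc E), extE (Pc E), ext_zfc, holds_main hX hE⟩

end Pool.Agent.Lib_helper27.S
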