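import Pool.Agent.Lib_helper27.S.Ent

/-!
# The sets are not `(𝔠, n + 1)`-entangled, and (∗)
-/

set_option linter.unusedSectionVars false
set_option linter.unusedVariables false

namespace Pool.Agent.Lib_helper27.S

open Fml V Q R Cardinal Set

section

variable {X : Type} [LinearOrder X] [WellFoundedLT X] {E : Nms X Om1 X}

/-- the indices of the entries of a tuple -/
def gN (X : Type) (n : ℕ) (α : X) (i : Fin (n + 1)) : IN X n :=
  ⟨(α, (i : ℕ)), Nat.lt_succ_iff.1 i.2⟩

/-- the tuple `(c_α + t_0, …, c_α + t_n)` -/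
noncomputable def aN (E : Nms X Om1 X) (n : ℕ) (α : X) : Name (Pc E) := tN E n (gN X n α)

theorem aN_app {n : ℕ} {α : X} {i : ℕ} (hi : i ≤ n) (p : Pc E) :
    Fc p (app (aN E n α) (onm (Pc E) i) (xN E n (α, i))) :=
  app_tN (gN X n α) ⟨i, Nat.lt_succ_of_le hi⟩ p

theorem aN_conv {n : ℕ} {α : X} {u v : Name (Pc E)} {p : Pc E} (h : Fc p (app (aN E n α) u v)) :
    Loc p fun r => ∃ i, i ≤ n ∧ feq u (onm (Pc E) i) r ∧ feq v (xN E n (α, i)) r := by
  refine (app_finN_conv (x := fun z : IN X n => xN E n z.1) (g := gN X n α) h).imp ?_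
  rintro r _ ⟨i, h1, h2⟩
  exact ⟨i, Nat.lt_succ_iff.1 i.2, h1, h2⟩

/-- `e` is the least label of its real -/
def QM (E : Nms X Om1 X) (e : X) (q : Pc E) : Prop :=
  ∀ e' < e, ∀ r, r ≤ q → ¬ feq (xE E e') (xE E e) r

theorem down_QM : Down (P := Pc E) (QM E) := fun e p q hq h e' he' r hr => h e' he' r (hr.trans hq)

theorem exists_QM {x : Name (Pc E)} {q : Pc E} (h : ∃ e, feq x (xE E e) q) :
    ∃ s, s ≤ q ∧ ∃ e, feq x (xE E e) s ∧ QM E e s := by
  classical
  obtain ⟨e0, he0⟩ := h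
  let S : Set X := {e | ∃ s, s ≤ q ∧ feq x (xE E e) s}
  have hS : S.Nonempty := ⟨e0, q, le_rfl, he0⟩
  obtain ⟨s, hs, he⟩ := (wellFounded_lt (α := X)).min_mem S hS
  refine ⟨s, hs, _, he, fun e' he' r hr hf => ?_⟩
  refine (wellFounded_lt (α := X)).not_lt_min S (x := e') ⟨r, hr.trans hs, ?_⟩ he'
  exact feq_trans (feq_mono hr he) (feq_symm hf)

/-- the name of the family of all these tuples -/
noncomputable def FN (E : Nms X Om1 X) (n : ℕ) : Name (Pc E) := mkQ X (aN E n) (QM E)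

theorem fmem_FN {n : ℕ} {z : Name (Pc E)} {p : Pc E} :
    fmem z (FN E n) p ↔ Loc p fun r => ∃ α, QM E α r ∧ feq z (aN E n α) r := fmem_mkQ down_QM

variable {n : ℕ}
  (hty : ∀ i j, i ≤ n → j ≤ n → i ≠ j → ∀ k, ∃ m, k ≤ m ∧ ty n m i ≠ ty n m j)

include hty

theorem aN_inj {α β : X} {p : Pc E} (h : feq (aN E n α) (aN E n β) p) : α = β := by
  by_contra hcon
  have h1 : Fc p (app (aN E n α) (onm (Pc E) 0) (xN E n (α, 0))) := aN_app (Nat.zero_le n) p
  have h2 : Fc p (app (aN E n β) (onm (Pc E) 0) (xN E n (β, 0))) := aN_app (Nat.zero_le n) p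
  have h3 := V.func_single (func_tN _ p) (app_congr_f h h1) h2
  exact xN_ne hty (Nat.zero_le n) (Nat.zero_le n) (fun h => hcon (congrArg Prod.fst h)) p h3

theorem aN_disj {α β : X} (hαβ : α ≠ β) (p : Pc E) : Fc p (disjT (aN E n α) (aN E n β)) := by
  intro u v x
  intro r hr ⟨h1, h2⟩
  obtain ⟨s, hs, i, hi', _, hi⟩ := (aN_conv h1).exists
  obtain ⟨w, hw, j, hj', _, hj⟩ := ((aN_conv h2).mono hs).exists
  refine xN_ne hty (z := (α, i)) (z' := (β, j)) hi' hj' (fun h => hαβ (congrArg Prod.fst h)) w ?_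
  exact feq_trans (feq_symm (feq_mono hw hi)) hj

theorem not_disj (α : X) (p : Pc E) : ¬ Fc p (disjT (aN E n α) (aN E n α)) := by
  intro h
  have h1 : Fc p (app (aN E n α) (onm (Pc E) 0) (xN E n (α, 0))) := aN_app (Nat.zero_le n) p
  exact h _ _ _ p le_rfl ⟨h1, h1⟩

theorem aN_isInj (α : X) (p : Pc E) :
    Fc p (isInj (aN E n α) (onm (Pc E) (n + 1)) (EN E n)) := by
  refine inj_finN (x := fun z : IN X n => xN E n z.1) (g := gN X n α)
    (fun i => xN_mem n _ p) ?_
  intro i j r hr h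
  by_contra hcon
  exact xN_ne hty (z := (gN X n α i).1) (z' := (gN X n α j).1) (gN X n α i).2 (gN X n α j).2
    (fun h => hcon (Fin.ext (congrArg Prod.snd h))) r h

theorem bij_FN (p : Pc E) : ∃ f : Name (Pc E), Fc p (isBij f (RN E) (FN E n)) := by
  have hd : Down (P := Pc E) (QM E) := down_QM
  refine ⟨mkFn X (xE E) (aN E n) (QM E), fc_isBij hd (fc_isInj hd (fc_isFunc hd ?_ ?_ ?_) ?_) ?_⟩
  · intro i r _ hi
    exact ⟨fmem_mkAll_of (x := xE E) i, fmem_mkQ_of (x := aN E n) hd hi⟩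
  · intro x q _ hx r hr
    obtain ⟨s, hs, e, he⟩ := ((fmem_mkAll.1 hx).mono hr).exists
    obtain ⟨t, ht, e', he', hq'⟩ := exists_QM ⟨e, he⟩
    exact ⟨t, ht.trans hs, e', hq', he'⟩
  · intro i j r _ hi hj h
    rcases lt_trichotomy i j with h1 | rfl | h1
    · exact absurd h (hj i h1 r le_rfl)
    · exact feq_refl _ _
    · exact absurd (feq_symm h) (hi j h1 r le_rfl)
  · intro i j r _ hi hj h
    rw [aN_inj hty h]
    exact feq_refl _ _
  · intro y q _ hy
    refine (fmem_FN.1 hy).imp ?_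
    rintro r _ ⟨α, hα, he⟩
    exact ⟨α, hα, fmem_mkAll_of (x := xE E) α, he⟩

theorem forces_not_ent (htn : ∀ m, ∀ b : Bool, ∃ i ≤ n, ty n m i = b) (p : Pc E) :
    ¬ Fc p (isEnt (oall (Pc E) ℕ) (twoN (Pc E)) (RN E) (bnm (Pc E) false) (bnm (Pc E) true)
      (onm (Pc E) (n + 1)) (EN E n)) := by
  intro h
  have h1 := (forces_imp nf_basic).1 (h (FN E n)) p le_rfl ⟨?_, ?_, ?_⟩
      (strN (Pc E) (List.replicate (n + 1) false))
  · have h2 := (forces_imp nf_basic).1 h1 p le_rfl (by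
      have h3 := strN_func (List.replicate (n + 1) false) p
      rwa [List.length_replicate] at h3)
    obtain ⟨q, hq, a, ha, h3⟩ := (forces_bex.1 h2).exists
    obtain ⟨r, hr, b, hb, h4, h5⟩ := (forces_bex.1 h3).exists
    obtain ⟨s, hs, α, hα, hae⟩ := ((fmem_FN.1 ha).mono hr).exists
    obtain ⟨t, ht, β, hβ, hbe⟩ := ((fmem_FN.1 hb).mono hs).exists
    have hae' := feq_mono ht hae
    have h6 : Fc t (disjT (aN E n α) (aN E n β)) :=
      (fc_uni (cv (disjT 0 1) 2) 2 (l := [a]) (l' := [aN E n α]) (.cons hae' .nil) hbe le_rfl).1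
        (Forces.mono nf_basic (ht.trans hs) h4)
    have h7 : Fc t (hasType (oall (Pc E) ℕ) (bnm (Pc E) false) (bnm (Pc E) true)
        (onm (Pc E) (n + 1)) (strN (Pc E) (List.replicate (n + 1) false)) (aN E n α) (aN E n β)) :=
      (fc_uni (cv (hasType 0 1 2 3 4 5 6) 7) 7
        (l := [oall (Pc E) ℕ, bnm (Pc E) false, bnm (Pc E) true, onm (Pc E) (n + 1),
          strN (Pc E) (List.replicate (n + 1) false), a])
        (l' := [oall (Pc E) ℕ, bnm (Pc E) false, bnm (Pc E) true, onm (Pc E) (n + 1),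
          strN (Pc E) (List.replicate (n + 1) false), aN E n α])
        (.cons (feq_refl _ _) (.cons (feq_refl _ _) (.cons (feq_refl _ _) (.cons (feq_refl _ _)
          (.cons (feq_refl _ _) (.cons hae' .nil)))))) hbe le_rfl).1
        (Forces.mono nf_basic (ht.trans hs) h5)
    have hαβ : α ≠ β := by
      rintro rfl
      exact not_disj hty α t h6
    -- all the coordinates are in the same order
    have h8 : ∀ k ≤ n, ∀ u, u ≤ t → ∃ v, v ≤ u ∧ ∃ m, (∀ k' < m, ∃ b, QC E n α k (k', b) v ∧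
        QC E n β k (k', b) v) ∧ QC E n α k (m, false) v ∧ QC E n β k (m, true) v := by
      intro k hk u hu
      have h9 := (forces_ball nf_basic).1 h7 (onm (Pc E) k) u hu (onm_mem (Nat.lt_succ_of_le hk) u)
        (xN E n (α, k)) (xN E n (β, k))
      have h10 := (forces_imp nf_basic).1 h9 u le_rfl
        ⟨aN_app hk u, aN_app hk u⟩
      have h11 : Fc u (app (strN (Pc E) (List.replicate (n + 1) false)) (onm (Pc E) k)
          (bnm (Pc E) false)) := by
        refine app_strN ?_ u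
        rw [List.getElem?_replicate, if_pos (Nat.lt_succ_of_le hk)]
      have h12 := ((forces_iff nf_basic).1 h10 u le_rfl).1 h11
      exact (lex_conv (isB_QC n α k) (isB_QC n β k) h12).exists
    obtain ⟨v, hv, m, hm1, hm2, hm3⟩ := h8 0 (Nat.zero_le n) t le_rfl
    obtain ⟨k, hk, hkt⟩ := htn m (!(ty n m 0))
    obtain ⟨w, hw, m', hm1', hm2', hm3'⟩ := h8 k hk v hv
    -- translate to bits
    have hdiff : ∀ (k m : ℕ) (v : Pc E), QC E n α k (m, false) v → QC E n β k (m, true) v →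
        Bt (Lab := X) (Om := Om1) v α m (ty n m k) ∧
        Bt (Lab := X) (Om := Om1) v β m (!(ty n m k)) := by
      intro k m v h1 h2
      have h1' : Bt (Lab := X) (Om := Om1) v α m (xor false (ty n m k)) := h1
      have h2' : Bt (Lab := X) (Om := Om1) v β m (xor true (ty n m k)) := h2
      simp only [Bool.false_xor, Bool.true_xor] at h1' h2'
      exact ⟨h1', h2'⟩
    have hsame : ∀ (k m : ℕ) (v : Pc E), (∃ b, QC E n α k (m, b) v ∧ QC E n β k (m, b) v) →
        ∃ b, Bt (Lab := X) (Om := Om1) v α m b ∧ Bt (Lab := X) (Om := Om1) v β m b := by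
      rintro k m v ⟨b, h1, h2⟩
      exact ⟨_, h1, h2⟩
    obtain ⟨h13, h14⟩ := hdiff 0 m v hm2 hm3
    obtain ⟨h15, h16⟩ := hdiff k m' w hm2' hm3'
    have h13' := bt_mono hw h13
    have h14' := bt_mono hw h14
    rcases lt_trichotomy m m' with h17 | h17 | h17
    · obtain ⟨b, h18, h19⟩ := hsame k m w (hm1' m h17)
      have h20 := (bt_single h13' h18).trans (bt_single h14' h19).symm
      revert h20
      cases ty n m 0 <;> simp
    · subst h17
      have h20 := bt_single h13' h15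
      rw [hkt] at h20
      revert h20
      cases ty n m 0 <;> simp
    · obtain ⟨b, h18, h19⟩ := hsame 0 m' v (hm1 m' h17)
      have h20 := (bt_single h15 (bt_mono hw h18)).trans (bt_single h16 (bt_mono hw h19)).symm
      revert h20
      cases ty n m' k <;> simp
  · refine (forces_ball nf_basic).2 fun a q _ ha => ?_
    refine Forces.dense nf_basic ((fmem_FN.1 ha).imp ?_)
    rintro r _ ⟨α, _, he⟩
    exact isInj_congr (feq_symm he) (feq_refl _ _) (feq_refl _ _) (aN_isInj hty α r)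
  · refine (forces_ball nf_basic).2 fun a q _ ha => ?_
    refine (forces_ball nf_basic).2 fun b r hr hb => ?_
    refine forces_or.2 ?_
    refine ((fmem_FN.1 ha).mono hr).bind ?_
    rintro s hs ⟨α, _, hae⟩
    refine ((fmem_FN.1 hb).mono hs).imp ?_
    rintro t ht ⟨β, _, hbe⟩
    by_cases hαβ : α = β
    · subst hαβ
      exact Or.inl (feq_trans (feq_mono ht hae) (feq_symm hbe))
    · right
      exact (fc_uni (cv (disjT 0 1) 2) 2 (l := [a]) (l' := [aN E n α])
        (.cons (feq_mono ht hae) .nil) hbe le_rfl).2 (aN_disj hty hαβ t)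
  · exact forces_ex.2 (Loc.pure fun q _ => bij_FN hty q)

end

end Pool.Agent.Lib_helper27.S
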