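import Pool.Agent.Lib_helper27.R.Stmt

/-!
# Entangled sets and `cov(B)`: the formulas

`W` is `ω`, `N` is `2 = {0, 1}`, `o` is `0`, `l` is `1`, and `R` is the set `2 ^ ω` of all functions
from `ω` to `2`, ordered lexicographically (the set of reals).
-/

namespace Pool.Agent.Lib_helper27.Fml

universe v

variable {U : Type v}

/-- `l' = l ∪ {l}` -/
def isSuc (l' l : U) : Fml U := all fun x => iff (mem x l') (or (mem x l) (eq x l))

/-- `x < y` in the lexicographic order of `2 ^ ω`: at the first place where they differ `x` has the
value `0` and `y` has the value `1` -/
def lexLt (W o l x y : U) : Fml U :=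
  bex W fun m => and (ball m fun k => all fun v => iff (app x k v) (app y k v))
    (and (app x m o) (app y m l))

/-- the tuples `a` and `b` share no entry -/
def disjT (a b : U) : Fml U :=
  all fun i => all fun j => all fun x => neg (and (app a i x) (app b j x))

/-- `t` is the type of the `n`-tuples `a` and `b`: `t(i) = 0` iff `a(i) < b(i)` -/
def hasType (W o l n t a b : U) : Fml U :=
  ball n fun i => all fun x => all fun y => imp (and (app a i x) (app b i y))
    (iff (app t i o) (lexLt W o l x y))

/-- `E` is `(𝔠, n)`-entangled: for every set `F` of cardinality `𝔠 = |R|` whose elements are pairwise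
disjoint injective functions from `n` to `E` (1-1 `n`-tuples of elements of `E`) and every function
`t` from `n` to `2` there are disjoint `a`, `b` in `F` with type `t` -/
def isEnt (W N R o l n E : U) : Fml U :=
  all fun F => imp (and (ball F fun a => isInj a n E)
      (and (ball F fun a => ball F fun b => or (eq a b) (disjT a b)) (ex fun f => isBij f R F)))
    (all fun t => imp (isFunc t n N)
      (bex F fun a => bex F fun b => and (disjT a b) (hasType W o l n t a b)))

/-- (∗): for every `n ∈ ω` with `1 < n` there is a subset `E` of `R` which is `(𝔠, n)`-entangled but
not `(𝔠, n + 1)`-entangled -/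
def starAx (W N R o l : U) : Fml U :=
  ball W fun n => imp (mem l n) (ex fun E => and (isSubset E R) (and (isEnt W N R o l n E)
    (all fun n' => imp (isSuc n' n) (neg (isEnt W N R o l n' E)))))

/-- `S` is a dense set of finite sequences of zeros and ones: every finite sequence of zeros and ones
is extended by an element of `S` -/
def isDense (W N S : U) : Fml U :=
  and (ball S fun s => bex W fun k => isFunc s k N)
    (ball W fun k => all fun s => imp (isFunc s k N) (bex S fun s' => isSubset s s'))

/-- `A` is a meager subset of `2 ^ ω`: there is a countable set `D` of dense sets of finite sequences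
of zeros and ones such that for every `x ∈ A` there is `S ∈ D` such that `x` extends no element
of `S` -/
def isMeager (W N A : U) : Fml U :=
  ex fun D => and (ex fun f => isInj f D W) (and (ball D fun S => isDense W N S)
    (ball A fun x => and (isFunc x W N) (bex D fun S => ball S fun s => neg (isSubset s x))))

/-- `cov(B) < 𝔠`: there is a set `Z` of meager subsets of `R = 2 ^ ω` whose union is `R`, such that
`R` does not inject into `Z` -/
def covLtC (W N R : U) : Fml U :=
  ex fun Z => and (ball Z fun A => isMeager W N A) (and (ball R fun x => bex Z fun A => mem x A)
    (neg (ex fun f => isInj f R Z)))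

/-- `cov(B) < 𝔠` and (∗) -/
def covLtStar : Fml U :=
  ex fun W => ex fun N => ex fun R => ex fun o => ex fun l => and (isOmega W) (and (isTwo N)
    (and (isPow W N R) (and (isEmpty o) (and (isUPair l o o)
      (and (covLtC W N R) (starAx W N R o l))))))

end Pool.Agent.Lib_helper27.Fml
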